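import Pool.Agent.U20.CA.Core3

/-!
Counting version of the obstruction to being a composition of one-sided closing maps.
-/

namespace Pool.Agent.U20.CA

open Pool.Agent.H624CA

variable {A : Type}

/-- no two different configurations with equal image agree outside a bounded interval -/
def PreInj (f : (ℤ → A) → (ℤ → A)) : Prop :=
  ∀ x y : ℤ → A, (∃ N : ℤ, ∀ i, i ≤ N → x i = y i) → (∃ M : ℤ, ∀ i, M ≤ i → x i = y i) →
    f x = f y → x = y

/-- the left end `s` is separated from the left end `t` by numbers of preimages -/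
def SepR (f : (ℤ → A) → (ℤ → A)) (P : Set A) (s t : A) : Prop :=
  ∃ x, LA x s ∧ (∃ u ∈ P, RA x u) ∧ ((¬ ∃ y, LA y t ∧ f y = f x) ∨
    (∃ x', LA x' s ∧ (∃ u' ∈ P, RA x' u') ∧ x ≠ x' ∧ f x' = f x ∧
      ∀ y y', LA y t → LA y' t → f y = f x → f y' = f x → y = y'))

/-- the part of the data that is symmetric -/
structure Dat0 (f : (ℤ → A) → (ℤ → A)) (o : A) (P : Set A) (D : ℤ) : Prop where
  pre : PreInj f
  hD : 0 ≤ D
  A0 : ∀ s ∈ P, f (cst s) = cst o
  A1 : ∀ (x : ℤ → A) (a b : ℤ), (∀ i, a ≤ i → i ≤ b → f x i = o) →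
      ∃ s ∈ P, ∀ i, a + D ≤ i → i ≤ b - D → x i = s

theorem one_side [Finite A] {f φ G : (ℤ → A) → (ℤ → A)} (hf : ∀ x, f x = φ (G x)) {r r' D : ℤ}
    (LG : Loc G r) (Lφ : Loc φ r') (CG : Comm G) (Cφ : Comm φ) (sG : Function.Surjective G)
    {o : A} {P : Set A} (Dt : Dat0 f o P D)
    (Rc : ∀ (x y : ℤ → A), ∀ s ∈ P, ∀ t ∈ P, ∀ t' ∈ P, LA x s → LA y s → RA x t → RA y t' →
      G x = G y → t = t')
    {s t : A} (hs : s ∈ P) (ht : t ∈ P) (hst : G (cst s) = G (cst t)) (hsep : SepR f P s t) :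
    False := by
  obtain ⟨x, hxs, ⟨u, hu, hxu⟩, hcase⟩ := hsep
  obtain ⟨y, hy, hyx⟩ := core3 hf LG Lφ CG Cφ sG Dt.hD Dt.A0 Dt.A1 Rc hs ht hst hxs hu hxu
  rcases hcase with hno | ⟨x', hxs', ⟨u', hu', hxu'⟩, hne, hfx, huniq⟩
  · exact hno ⟨y, hy, by rw [hf, hf, hyx]⟩
  · obtain ⟨y', hy', hyx'⟩ := core3 hf LG Lφ CG Cφ sG Dt.hD Dt.A0 Dt.A1 Rc hs ht hst hxs' hu' hxu'
    have e := huniq y y' hy hy' (by rw [hf, hf, hyx]) (by rw [← hfx, hf y', hf x', hyx'])
    have hG : G x = G x' := by rw [← hyx, ← hyx', e]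
    have huu := Rc x x' s hs u hu u' hu' hxs hxs' hxu hxu' hG
    subst huu
    obtain ⟨N1, h1⟩ := hxs
    obtain ⟨N2, h2⟩ := hxs'
    obtain ⟨M1, h3⟩ := hxu
    obtain ⟨M2, h4⟩ := hxu'
    refine hne (Dt.pre x x' ⟨min N1 N2, fun i hi => ?_⟩ ⟨max M1 M2, fun i hi => ?_⟩ hfx.symm)
    · rw [h1 i (le_trans hi (min_le_left _ _)), h2 i (le_trans hi (min_le_right _ _))]
    · rw [h3 i (le_trans (le_max_left _ _) hi), h4 i (le_trans (le_max_right _ _) hi)]

lemma Dat0.rh {f : (ℤ → A) → (ℤ → A)} {o : A} {P : Set A} {D : ℤ} (Dt : Dat0 f o P D) :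
    Dat0 (rh f) o P D where
  pre := by
    rintro x y ⟨N, hN⟩ ⟨M, hM⟩ h
    refine rv_inj (Dt.pre (rv x) (rv y) ⟨-M, fun i hi => hM (-i) (by omega)⟩
      ⟨-N, fun i hi => hN (-i) (by omega)⟩ (rv_inj h))
  hD := Dt.hD
  A0 := by
    intro s hs
    simp only [H624CA.rh, rv_cst, Dt.A0 s hs]
  A1 := by
    intro x a b hx
    obtain ⟨s, hs, hst⟩ := Dt.A1 (rv x) (-b) (-a) fun i h1 h2 => by
      have := hx (-i) (by omega) (by omega)
      simpa [H624CA.rh, rv] using this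
    refine ⟨s, hs, fun i h1 h2 => ?_⟩
    have := hst (-i) (by omega) (by omega)
    simpa [rv] using this

/-- the facts about `f` used by the obstruction -/
structure Dat (f : (ℤ → A) → (ℤ → A)) (o : A) (P : Set A) (D : ℤ) : Prop extends
    Dat0 f o P D where
  A2R : ∀ s ∈ P, ∀ t ∈ P, s ≠ t → SepR f P s t ∨ SepR f P t s
  A2L : ∀ s ∈ P, ∀ t ∈ P, s ≠ t → SepR (rh f) P s t ∨ SepR (rh f) P t s

theorem comp_inj3 [Finite A] {f : (ℤ → A) → (ℤ → A)} {o : A} {P : Set A} {D : ℤ}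
    (Dt : Dat f o P D)
    {h : (ℤ → A) → (ℤ → A)} (H : Comp h) : ∀ φ : (ℤ → A) → (ℤ → A), (∃ r, Loc φ r) → Comm φ →
      (∀ x, f x = φ (h x)) → ∀ s ∈ P, ∀ t ∈ P, h (cst s) = h (cst t) → s = t := by
  induction H with
  | id =>
    intro φ _ _ _ s _ t _ hst
    exact congrFun hst 0
  | step g h Lg Cg sg hg Hh ih =>
    rintro φ ⟨rφ, Lφ⟩ Cφ hf s hs t ht hst
    obtain ⟨⟨rh0, Lh⟩, Ch, sh⟩ := Hh.props
    obtain ⟨rg, Lg⟩ := Lg
    have Cgh : Comm (g ∘ h) := by intro x; simp only [Function.comp]; rw [Ch, Cg]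
    have inj : ∀ s ∈ P, ∀ t ∈ P, h (cst s) = h (cst t) → s = t := by
      refine ih (φ ∘ g) ⟨_, Lφ.comp Lg⟩ ?_ hf
      intro x; simp only [Function.comp]; rw [Cg, Cφ]
    have hL : ∀ {x : ℤ → A} {a : A}, LA x a → ∃ N : ℤ, ∀ i, i ≤ N → h x i = h (cst a) 0 := by
      rintro x a ⟨N, hN⟩
      have := Lh.1
      exact ⟨N - rh0, fun i hi => loc_cst Lh Ch fun j _ h2 => hN j (by omega)⟩
    have hR : ∀ {x : ℤ → A} {a : A}, RA x a → ∃ N : ℤ, ∀ i, N ≤ i → h x i = h (cst a) 0 := by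
      rintro x a ⟨N, hN⟩
      have := Lh.1
      exact ⟨N + rh0, fun i hi => loc_cst Lh Ch fun j h1 _ => hN j (by omega)⟩
    have cc : ∀ {a b : A}, h (cst a) 0 = h (cst b) 0 → h (cst a) = h (cst b) := by
      intro a b hab
      rw [Ch.cst_eq a, Ch.cst_eq b, hab]
    rcases hg with hg | hg
    · -- right closing
      by_contra hne
      have Rc : ∀ (x y : ℤ → A), ∀ s ∈ P, ∀ t ∈ P, ∀ t' ∈ P, LA x s → LA y s → RA x t →
          RA y t' → (g ∘ h) x = (g ∘ h) y → t = t' := by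
        intro x y s _ t ht t' ht' hx hy hxt hyt hxy
        obtain ⟨N1, h1⟩ := hL hx
        obtain ⟨N2, h2⟩ := hL hy
        have e : h x = h y := hg _ _ ⟨min N1 N2, fun i hi => by
          rw [h1 i (le_trans hi (min_le_left _ _)), h2 i (le_trans hi (min_le_right _ _))]⟩ hxy
        obtain ⟨M1, h3⟩ := hR hxt
        obtain ⟨M2, h4⟩ := hR hyt
        refine inj t ht t' ht' (cc ?_)
        rw [← h3 (max M1 M2) (le_max_left _ _), ← h4 (max M1 M2) (le_max_right _ _), e]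
      rcases Dt.A2R s hs t ht hne with hsep | hsep
      · exact one_side (G := g ∘ h) hf (Lg.comp Lh) Lφ Cgh Cφ (sg.comp sh) Dt.toDat0 Rc hs ht
          hst hsep
      · exact one_side (G := g ∘ h) hf (Lg.comp Lh) Lφ Cgh Cφ (sg.comp sh) Dt.toDat0 Rc ht hs
          hst.symm hsep
    · -- left closing
      by_contra hne
      have Rc : ∀ (x y : ℤ → A), ∀ s ∈ P, ∀ t ∈ P, ∀ t' ∈ P, LA x s → LA y s → RA x t →
          RA y t' → rh (g ∘ h) x = rh (g ∘ h) y → t = t' := by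
        intro x y s _ t ht t' ht' hx hy hxt hyt hxy
        have hx' := RA_rv.2 hx
        have hy' := RA_rv.2 hy
        have hxt' := LA_rv.2 hxt
        have hyt' := LA_rv.2 hyt
        have hxy' : g (h (rv x)) = g (h (rv y)) := rv_inj hxy
        obtain ⟨N1, h1⟩ := hR hx'
        obtain ⟨N2, h2⟩ := hR hy'
        have e : h (rv x) = h (rv y) := hg _ _ ⟨max N1 N2, fun i hi => by
          rw [h1 i (le_trans (le_max_left _ _) hi), h2 i (le_trans (le_max_right _ _) hi)]⟩ hxy'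
        obtain ⟨M1, h3⟩ := hL hxt'
        obtain ⟨M2, h4⟩ := hL hyt'
        refine inj t ht t' ht' (cc ?_)
        rw [← h3 (min M1 M2) (min_le_left _ _), ← h4 (min M1 M2) (min_le_right _ _), e]
      have hf' : ∀ x, rh f x = rh φ (rh (g ∘ h) x) := by
        intro x
        simp only [rh, rv_rv]
        rw [hf]
      have hst' : rh (g ∘ h) (cst s) = rh (g ∘ h) (cst t) := by
        simp only [rh, rv_cst, hst]
      rcases Dt.A2L s hs t ht hne with hsep | hsep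
      · exact one_side (G := rh (g ∘ h)) hf' (Lg.comp Lh).rh Lφ.rh Cgh.rh Cφ.rh
          (surj_rh (sg.comp sh)) Dt.toDat0.rh Rc hs ht hst' hsep
      · exact one_side (G := rh (g ∘ h)) hf' (Lg.comp Lh).rh Lφ.rh Cgh.rh Cφ.rh
          (surj_rh (sg.comp sh)) Dt.toDat0.rh Rc ht hs hst'.symm hsep

/-- a map with the data above and two different elements of `P` is not a composition -/
theorem not_comp3 [Finite A] {f : (ℤ → A) → (ℤ → A)} {o : A} {P : Set A} {D : ℤ}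
    (Dt : Dat f o P D) {s t : A} (hs : s ∈ P) (ht : t ∈ P) (hst : s ≠ t) : ¬ Comp f := by
  intro H
  refine hst (comp_inj3 Dt H id ⟨0, le_rfl, fun x y i h => h i (by omega) (by omega)⟩
    (fun x => rfl) (fun x => rfl) s hs t ht ?_)
  rw [Dt.A0 s hs, Dt.A0 t ht]

end Pool.Agent.U20.CA
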