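import Pool.Agent.H624CB.Strict
import Pool.Agent.U20.CA.Main3

/-!
Cellular automata that act on code words by a rule of radius one.
-/

namespace Pool.Agent.U20.CA

open Pool.Agent.H624CA

section
attribute [local instance] Classical.propDecidable

variable {S : Type} (s0 s1 : S) (n : ℕ) (T : ℕ → ℕ → ℕ → ℕ)

/-- the new letter at `a` -/
noncomputable def NT (x : ℤ → S) (a : ℤ) : ℕ :=
  T (lt s0 s1 n x (a - (n + 6))) (lt s0 s1 n x a) (lt s0 s1 n x (a + (n + 6)))

/-- the cellular automaton that applies the rule `T` to the code words -/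
noncomputable def fT (x : ℤ → S) : ℤ → S := fun i =>
  if h : ∃ j : ℕ, j < n + 6 ∧ lt s0 s1 n x (i - j) ≤ n + 1 then
    Wd s0 s1 (NT s0 s1 n T x (i - h.choose)) h.choose else x i

/-- the rule keeps the places of the letters -/
structure Rule (n : ℕ) (T : ℕ → ℕ → ℕ → ℕ) : Prop where
  le : ∀ a b c, a ≤ n + 2 → b ≤ n + 1 → c ≤ n + 2 → T a b c ≤ n + 1
  top : ∀ a c, a ≤ n + 2 → c ≤ n + 2 → T a (n + 2) c = n + 2

variable {s0 s1 n T}

lemma fT_in (h01 : s0 ≠ s1) {x : ℤ → S} {a : ℤ} {j : ℕ} (hj : j < n + 6)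
    (h : lt s0 s1 n x a ≤ n + 1) : fT s0 s1 n T x (a + j) = Wd s0 s1 (NT s0 s1 n T x a) j := by
  have h1 : ∃ j' : ℕ, j' < n + 6 ∧ lt s0 s1 n x (a + j - j') ≤ n + 1 :=
    ⟨j, hj, by rwa [add_sub_cancel_right]⟩
  unfold fT
  rw [dif_pos h1]
  have h2 : h1.choose = j := by
    refine cov_unique (i := a + j) h01 h1.choose_spec.1 hj h1.choose_spec.2 ?_
    rwa [add_sub_cancel_right]
  rw [h2, add_sub_cancel_right]

lemma fT_out {x : ℤ → S} {i : ℤ}
    (h : ∀ j : ℕ, j < n + 6 → lt s0 s1 n x (i - j) = n + 2) : fT s0 s1 n T x i = x i := by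
  unfold fT
  rw [dif_neg]
  rintro ⟨j, hj, h1⟩
  rw [h j hj] at h1
  omega

lemma NT_le (R : Rule n T) {x : ℤ → S} {a : ℤ} (h : lt s0 s1 n x a ≤ n + 1) :
    NT s0 s1 n T x a ≤ n + 1 := R.le _ _ _ lt_le h lt_le

/-- the letters of the image -/
lemma lt_fT (h01 : s0 ≠ s1) (R : Rule n T) {x : ℤ → S} {a : ℤ} :
    lt s0 s1 n (fT s0 s1 n T x) a = NT s0 s1 n T x a := by
  by_cases h : lt s0 s1 n x a ≤ n + 1
  · rw [lt_iff h01 (NT_le R h)]
    intro j hj
    exact fT_in h01 hj h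
  · have h' := lt_eq_top.1 h
    have e1 : NT s0 s1 n T x a = n + 2 := by
      unfold NT
      rw [h', R.top _ _ lt_le lt_le]
    rw [e1]
    by_contra hc
    have hc' : lt s0 s1 n (fT s0 s1 n T x) a ≤ n + 1 := by
      have := lt_le (s0 := s0) (s1 := s1) (n := n) (x := fT s0 s1 n T x) (a := a)
      omega
    have hI := (lt_iff h01 hc').1 rfl
    have hunc : ∀ j : ℕ, j < n + 6 → ∀ j' : ℕ, j' < n + 6 →
        lt s0 s1 n x (a + j - j') = n + 2 := by
      intro j hj j' hj'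
      by_contra hcc
      have h3 : lt s0 s1 n x (a + j - j') ≤ n + 1 := by
        have := lt_le (s0 := s0) (s1 := s1) (n := n) (x := x) (a := a + j - j')
        omega
      have h4 : Ic s0 s1 n (fT s0 s1 n T x) (a + j - j') (NT s0 s1 n T x (a + j - j')) := by
        intro t ht
        exact fT_in h01 ht h3
      rcases lt_trichotomy a (a + j - j') with hh | hh | hh
      · exact Ic_no h01 hc' hh (by omega) hI h4
      · rw [← hh] at h3; exact h h3
      · exact Ic_no h01 (NT_le R h3) hh (by omega) h4 hI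
    have hIx : Ic s0 s1 n x a (lt s0 s1 n (fT s0 s1 n T x) a) := by
      intro j hj
      rw [← hI j hj, fT_out (hunc j hj)]
    exact h ((lt_iff h01 hc').2 hIx ▸ hc')

lemma fT_loc (h01 : s0 ≠ s1) (R : Rule n T) :
    Loc (fT s0 s1 n T) (2 * (n + 6)) := by
  refine ⟨by positivity, fun x y i hxy => ?_⟩
  have hl : ∀ a : ℤ, i - 2 * (n + 6) ≤ a → a ≤ i + (n + 6) → lt s0 s1 n x a = lt s0 s1 n y a := by
    intro a h1 h2
    refine lt_congr h01 fun t h3 h4 => hxy t (by omega) (by omega)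
  refine eq_of_lt (n := n) h01 (fun j hj => ?_) (fun hout => ?_)
  · rw [lt_fT h01 R, lt_fT h01 R]
    unfold NT
    have e1 : lt s0 s1 n x (i - j) = lt s0 s1 n y (i - j) := hl _ (by omega) (by omega)
    have e2 : lt s0 s1 n x (i - j - (n + 6)) = lt s0 s1 n y (i - j - (n + 6)) :=
      hl _ (by omega) (by omega)
    have e3 : lt s0 s1 n x (i - j + (n + 6)) = lt s0 s1 n y (i - j + (n + 6)) :=
      hl _ (by omega) (by omega)
    rw [e1, e2, e3]
  · have o1 : ∀ j : ℕ, j < n + 6 → lt s0 s1 n x (i - j) = n + 2 := by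
      intro j hj
      by_contra hc
      have h3 : lt s0 s1 n x (i - j) ≤ n + 1 := by
        have := lt_le (s0 := s0) (s1 := s1) (n := n) (x := x) (a := i - j)
        omega
      have h4 := hout j hj
      rw [lt_fT h01 R] at h4
      have := NT_le R h3
      omega
    rw [fT_out o1, fT_out (fun j hj => by rw [← hl _ (by omega) (by omega)]; exact o1 j hj)]
    exact hxy i (by omega) (by omega)

lemma NT_shift (h01 : s0 ≠ s1) {x : ℤ → S} {a : ℤ} :
    NT s0 s1 n T (shift x) a = NT s0 s1 n T x (a + 1) := by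
  unfold NT
  rw [lt_shift h01, lt_shift h01, lt_shift h01]
  have e1 : a - (n + 6) + 1 = a + 1 - ((n : ℤ) + 6) := by ring
  have e2 : a + (n + 6) + 1 = a + 1 + ((n : ℤ) + 6) := by ring
  rw [e1, e2]

lemma fT_comm (h01 : s0 ≠ s1) : Comm (fT s0 s1 n T) := by
  intro x
  funext i
  by_cases hc : ∃ j : ℕ, j < n + 6 ∧ lt s0 s1 n x (i + 1 - j) ≤ n + 1
  · obtain ⟨j, hj, h1⟩ := hc
    have e1 : i = (i - j) + (j : ℤ) := by ring
    have e2 : i + 1 = (i + 1 - j) + (j : ℤ) := by ring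
    have h2 : lt s0 s1 n (shift x) (i - j) ≤ n + 1 := by
      rw [lt_shift h01]; convert h1 using 2; ring
    have l1 := fT_in (T := T) h01 hj h2
    have l2 := fT_in (T := T) h01 hj h1
    rw [← e1] at l1
    rw [← e2] at l2
    show fT s0 s1 n T (shift x) i = fT s0 s1 n T x (i + 1)
    rw [l1, l2, NT_shift h01]
    congr 2
    ring
  · push Not at hc
    have h1 : ∀ j : ℕ, j < n + 6 → lt s0 s1 n x (i + 1 - j) = n + 2 := fun j hj =>
      lt_eq_top.1 (by have := hc j hj; omega)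
    show fT s0 s1 n T (shift x) i = fT s0 s1 n T x (i + 1)
    rw [fT_out h1, fT_out]
    · rfl
    · intro j hj
      rw [lt_shift h01, ← h1 j hj]
      congr 1
      ring

lemma fT_eq (h01 : s0 ≠ s1) {x y : ℤ → S}
    (hg : fT s0 s1 n T x = fT s0 s1 n T y)
    (hl : ∀ a, lt s0 s1 n x a = lt s0 s1 n y a) : x = y := by
  funext i
  refine eq_of_lt (n := n) h01 (fun j _ => hl _) fun hout => ?_
  have h1 := congrFun hg i
  rw [fT_out hout, fT_out (fun j hj => by rw [← hl]; exact hout j hj)] at h1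
  exact h1

/-- the image on sequences of letters -/
def Im (T : ℕ → ℕ → ℕ → ℕ) (z : ℤ → ℕ) : ℤ → ℕ := fun k => T (z (k - 1)) (z k) (z (k + 1))

/-- pre-injectivity on sequences of letters -/
def ZPre (n : ℕ) (T : ℕ → ℕ → ℕ → ℕ) : Prop :=
  ∀ z z' : ℤ → ℕ, (∀ k, z k ≤ n + 2) → (∀ k, z' k ≤ n + 2) →
    (∃ N : ℤ, ∀ k, k ≤ N → z k = z' k) → (∃ M : ℤ, ∀ k, M ≤ k → z k = z' k) →
    Im T z = Im T z' → z = z'

lemma fT_pre (h01 : s0 ≠ s1) (R : Rule n T) (hz : ZPre n T) : PreInj (fT s0 s1 n T) := by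
  rintro x y ⟨N, hN⟩ ⟨M, hM⟩ h
  refine fT_eq h01 h fun a => ?_
  have key := hz (fun k => lt s0 s1 n x (a + (n + 6) * k)) (fun k => lt s0 s1 n y (a + (n + 6) * k))
    (fun k => lt_le) (fun k => lt_le) ⟨N - |a| - (n + 6) - |N|, fun k hk => ?_⟩
    ⟨|M| + |a|, fun k hk => ?_⟩ ?_
  · have := congrFun key 0
    simpa using this
  · refine lt_congr h01 fun i h1 h2 => hN i ?_
    have a1 := le_abs_self a
    have a2 := abs_nonneg a
    have a3 := neg_abs_le N
    have a4 := abs_nonneg N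
    have a5 := le_abs_self N
    have h0 : (0 : ℤ) ≤ n := by positivity
    have hk0 : k ≤ 0 := by omega
    nlinarith
  · refine lt_congr h01 fun i h1 h2 => hM i ?_
    have a1 := neg_abs_le a
    have a2 := abs_nonneg a
    have a3 := le_abs_self M
    have a4 := abs_nonneg M
    have h0 : (0 : ℤ) ≤ n := by positivity
    have hk0 : 0 ≤ k := by omega
    nlinarith
  · funext k
    have e := congrArg (fun u => lt s0 s1 n u (a + (n + 6) * k)) h
    simp only [lt_fT h01 R] at e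
    unfold NT at e
    have e1 : a + ((n : ℤ) + 6) * k - (n + 6) = a + (n + 6) * (k - 1) := by ring
    have e2 : a + ((n : ℤ) + 6) * k + (n + 6) = a + (n + 6) * (k + 1) := by ring
    rw [e1, e2] at e
    exact e

lemma fT_isCA (h01 : s0 ≠ s1) (R : Rule n T) : IsCA (fT s0 s1 n T) :=
  isCA_of (fT_loc h01 R) (fT_comm h01)

lemma fT_surj [Finite S] (h01 : s0 ≠ s1) (R : Rule n T) (hz : ZPre n T) :
    Function.Surjective (fT s0 s1 n T) := by
  refine myhill (fT_loc h01 R) (fT_comm h01) fun x y ⟨N, hN⟩ hxy => ?_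
  exact fT_pre h01 R hz x y ⟨-N, fun i hi => hN i (Or.inl hi)⟩ ⟨N, fun i hi => hN i (Or.inr hi)⟩ hxy

end

lemma hatl_pre {S : Type} {l : ℕ} [NeZero l] {f : (ℤ → S) → (ℤ → S)} (H : PreInj f) :
    PreInj (hatl l f) := by
  have h0 : (0 : ℤ) < l := lpos' (NeZero.ne l)
  rintro X Y ⟨N, hN⟩ ⟨M, hM⟩ h
  refine Bil_inj (H _ _ ⟨l * N, fun i hi => ?_⟩ ⟨l * M, fun i hi => ?_⟩ (Bll_inj h))
  · unfold Bil
    have e2 := Int.emod_nonneg i h0.ne'
    have e3 := Int.mul_ediv_add_emod i l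
    rw [hN (i / l) (by
      by_contra hc
      push Not at hc
      nlinarith)]
  · unfold Bil
    have e1 := Int.emod_lt_of_pos i h0
    have e3 := Int.mul_ediv_add_emod i l
    rw [hM (i / l) (by
      by_contra hc
      push Not at hc
      nlinarith)]

lemma comp_of_compN {A : Type} {m : ℕ} {f : (ℤ → A) → (ℤ → A)} (H : CompN m f) : Comp f := by
  induction H with
  | id => exact Comp.id
  | step m g h L C s c _ ih => exact Comp.step g h L C s c ih

end Pool.Agent.U20.CA
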