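import Pool.Agent.H624CA.Main

/-!
Obstruction to a factorisation through one-sided closing maps, version with a lift of
configurations (instead of a non-existence statement) and with a delay in the run property.
-/

namespace Pool.Agent.U20.CA

open Pool.Agent.H624CA

variable {A : Type}

/-- lifting: under the hypotheses every configuration with left end `p` has a partner with left
end `q` and the same image under the inner map -/
theorem core3 [Finite A] {f φ h : (ℤ → A) → (ℤ → A)} (hf : ∀ x, f x = φ (h x)) {r r' D : ℤ}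
    (Lh : Loc h r) (Lφ : Loc φ r') (Ch : Comm h) (Cφ : Comm φ) (sh : Function.Surjective h)
    (hD : 0 ≤ D)
    {o : A} {P : Set A} (A0 : ∀ s ∈ P, f (cst s) = cst o)
    (A1 : ∀ (x : ℤ → A) (a b : ℤ), (∀ i, a ≤ i → i ≤ b → f x i = o) →
      ∃ s ∈ P, ∀ i, a + D ≤ i → i ≤ b - D → x i = s)
    (Rc : ∀ (x y : ℤ → A), ∀ s ∈ P, ∀ t ∈ P, ∀ t' ∈ P, LA x s → LA y s → RA x t → RA y t' →
      h x = h y → t = t')
    {p q : A} (hp : p ∈ P) (hq : q ∈ P) (hpq : h (cst p) = h (cst q))
    {x1 : ℤ → A} (x1L : LA x1 p) {u1 : A} (hu1 : u1 ∈ P) (x1R : RA x1 u1) :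
    ∃ y, LA y q ∧ h y = h x1 := by
  classical
  by_contra hno
  set κ := h (cst p) 0 with hκ
  have hκq : h (cst q) 0 = κ := by rw [← hpq]
  let good : (ℤ → A) → Prop := fun w =>
    ∃ c ∈ P, ∃ d ∈ P, ∃ x, LA x c ∧ RA x d ∧ h x = w ∧ h (cst c) 0 = κ
  let dom : (ℤ → A) → Set A := fun w => {c | c ∈ P ∧ ∃ x, LA x c ∧ h x = w}
  have hex : ∃ w, good w ∧ ∀ w', good w' → (dom w).ncard ≤ (dom w').ncard := by
    let N : Set ℕ := (fun w => (dom w).ncard) '' {w | good w}
    have hN : N.Nonempty := ⟨_, h (cst p), ⟨p, hp, p, hp, cst p, ⟨0, fun _ _ => rfl⟩,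
      ⟨0, fun _ _ => rfl⟩, rfl, rfl⟩, rfl⟩
    obtain ⟨w, hw, hw'⟩ := Nat.sInf_mem hN
    refine ⟨w, hw, fun w' hw'' => ?_⟩
    have h1 : sInf N ≤ (dom w').ncard := Nat.sInf_le ⟨w', hw'', rfl⟩
    have h2 : (dom w).ncard = sInf N := hw'
    omega
  obtain ⟨w, ⟨c, hc, d, hd, xs, ⟨N0, xsL⟩, ⟨N1, xsR⟩, rfl, hκc⟩, hmin⟩ := hex
  obtain ⟨M0, x1L⟩ := x1L
  obtain ⟨M1, x1R⟩ := x1R
  have hr := Lh.1
  have hr' := Lφ.1
  obtain ⟨R, hR⟩ : ∃ R, R = r' + D := ⟨_, rfl⟩
  have hR0 : 0 ≤ R := by omega
  have φκ : ∀ s ∈ P, φ (cst (h (cst s) 0)) 0 = o := by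
    intro s hs
    rw [← Ch.cst_eq s, ← hf, A0 s hs]; rfl
  have key : ∀ (x : ℤ → A) (a b : ℤ) (s : A), s ∈ P →
      (∀ j, a - R ≤ j → j ≤ b + R → h x j = h (cst s) 0) →
      ∃ t ∈ P, ∀ i, a ≤ i → i ≤ b → x i = t := by
    intro x a b s hs hj
    obtain ⟨t, ht, hxt⟩ := A1 x (a - D) (b + D) fun i h1 h2 => by
      rw [hf, loc_cst Lφ Cφ (a := h (cst s) 0) fun j h3 h4 => hj j (by omega) (by omega)]
      exact φκ s hs
    exact ⟨t, ht, fun i h1 h2 => hxt i (by omega) (by omega)⟩
  have keyL : ∀ (x : ℤ → A) (b : ℤ) (s : A), s ∈ P →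
      (∀ j, j ≤ b + R → h x j = h (cst s) 0) → ∃ t ∈ P, ∀ i, i ≤ b → x i = t := by
    intro x b s hs hj
    obtain ⟨t, ht, h1⟩ := key x b b s hs fun j _ h2 => hj j h2
    refine ⟨t, ht, fun i hi => ?_⟩
    obtain ⟨t', ht', h2⟩ := key x i b s hs fun j _ h2 => hj j h2
    rw [h2 i le_rfl hi, ← h2 b hi le_rfl, h1 b le_rfl le_rfl]
  have keyR : ∀ (x : ℤ → A) (a : ℤ) (s : A), s ∈ P →
      (∀ j, a - R ≤ j → h x j = h (cst s) 0) → ∃ t ∈ P, ∀ i, a ≤ i → x i = t := by
    intro x a s hs hj
    obtain ⟨t, ht, h1⟩ := key x a a s hs fun j h1 _ => hj j h1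
    refine ⟨t, ht, fun i hi => ?_⟩
    obtain ⟨t', ht', h2⟩ := key x a i s hs fun j h1 _ => hj j h1
    rw [h2 i hi le_rfl, ← h2 a le_rfl hi, h1 a le_rfl le_rfl]
  set K := 10 * (r + R + 1) with hK
  obtain ⟨a, haN0, haN1⟩ : ∃ a : ℤ, N0 + K ≤ a ∧ N1 + K ≤ a :=
    ⟨max N0 N1 + K, by have := le_max_left N0 N1; omega, by have := le_max_right N0 N1; omega⟩
  set e := a + K with he
  set m := e - M0 with hm
  set x2 : ℤ → A := fun i => if i < a then xs i else q with hx2
  set wn : ℤ → A := fun i => if i < a + r then h x2 i else h x1 (i - m) with hwn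
  have F1 : ∀ i, a + r ≤ i → h x2 i = κ := by
    intro i hi
    rw [← hκq]
    refine loc_cst Lh Ch fun j h1 h2 => ?_
    have : ¬ j < a := by omega
    simp only [hx2, this, if_false]
  have F2 : ∀ i, i ≤ e - r → h x1 (i - m) = κ := by
    intro i hi
    refine loc_cst Lh Ch fun j h1 h2 => x1L j (by omega)
  have F3 : ∀ i, i < a - r → h x2 i = h xs i := by
    intro i hi
    refine Lh.2 _ _ _ fun j h1 h2 => ?_
    have : j < a := by omega
    simp only [hx2, this, if_true]
  have F4 : ∀ i, N1 + r ≤ i → h xs i = h (cst d) 0 := by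
    intro i hi
    exact loc_cst Lh Ch fun j h1 h2 => xsR j (by omega)
  have F5 : ∀ i, a + r ≤ i → i ≤ e - r → wn i = κ := by
    intro i h1 h2
    have : ¬ i < a + r := by omega
    simp only [hwn, this, if_false]
    exact F2 i h2
  have F6 : ∀ i, i < a - r → wn i = h xs i := by
    intro i h1
    have : i < a + r := by omega
    simp only [hwn, this, if_true]
    exact F3 i h1
  have F7 : ∀ i, a + r ≤ i → wn i = h x1 (i - m) := by
    intro i h1
    have : ¬ i < a + r := by omega
    simp only [hwn, this, if_false]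
  have F8 : ∀ i, i < a + r → wn i = h x2 i := by
    intro i h1
    simp only [hwn, h1, if_true]
  -- the new word is good
  have hgood : good wn := by
    obtain ⟨xn, hxn⟩ := sh wn
    have hl : ∀ i, i ≤ N0 - r → wn i = κ := by
      intro i hi
      rw [F6 i (by omega), ← hκc]
      exact loc_cst Lh Ch fun j h1 h2 => xsL j (by omega)
    obtain ⟨c', hc', hxnL⟩ := keyL xn (N0 - r - R) p hp fun j h2 => by
      rw [hxn]; exact hl j (by omega)
    have hrr : ∀ i, M1 + m + r ≤ i → a + r ≤ i → wn i = h (cst u1) 0 := by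
      intro i hi hi'
      rw [F7 i hi']
      exact loc_cst Lh Ch fun j h1 h2 => x1R j (by omega)
    obtain ⟨d', hd', hxnR⟩ := keyR xn (max (M1 + m + r) (a + r) + R) u1 hu1 fun j h1 => by
      rw [hxn]
      exact hrr j (by have := le_max_left (M1 + m + r) (a + r); omega)
        (by have := le_max_right (M1 + m + r) (a + r); omega)
    refine ⟨c', hc', d', hd', xn, ⟨_, hxnL⟩, ⟨_, hxnR⟩, hxn, ?_⟩
    have h1 : h xn (N0 - r - R - r) = h (cst c') 0 :=
      loc_cst Lh Ch fun j h1 h2 => hxnL j (by omega)
    rw [← h1, hxn]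
    exact hl _ (by omega)
  have hsub : dom wn ⊆ dom (h xs) \ {c} := by
    rintro e' ⟨he', x, ⟨N, hxN⟩, hx⟩
    constructor
    · refine ⟨he', ?_⟩
      obtain ⟨t1, ht1, hst⟩ := key x (N1 + r + R) (a - r - R - 1) d hd fun j h3 h4 => by
        rw [hx, F6 j (by omega)]; exact F4 j (by omega)
      have hk : h (cst t1) 0 = h (cst d) 0 := by
        have e1 : h x (N1 + 2 * r + R) = h (cst t1) 0 :=
          loc_cst Lh Ch fun j h1 h2 => hst j (by omega) (by omega)
        rw [← e1, hx, F6 _ (by omega)]
        exact F4 _ (by omega)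
      refine ⟨fun i => if i < a - r - R then x i else t1, ⟨min N (a - r - R - 1), ?_⟩, ?_⟩
      · intro i hi
        have h1 : i < a - r - R := by have := min_le_right N (a - r - R - 1); omega
        simp only [h1, if_true]
        exact hxN i (by have := min_le_left N (a - r - R - 1); omega)
      · funext i
        by_cases hi : i < a - r - R - r
        · have : h (fun i => if i < a - r - R then x i else t1) i = h x i := by
            refine Lh.2 _ _ _ fun j h1 h2 => ?_
            have : j < a - r - R := by omega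
            simp only [this, if_true]
          rw [this, hx]
          exact F6 i (by omega)
        · rw [F4 i (by omega), ← hk]
          refine loc_cst Lh Ch fun j h1 h2 => ?_
          by_cases hj : j < a - r - R
          · simp only [hj, if_true]
            exact hst j (by omega) (by omega)
          · simp only [hj, if_false]
    · rintro (rfl : e' = c)
      obtain ⟨t2, ht2, hst⟩ := key x (a + r + R) (e - r - R) p hp fun j h3 h4 => by
        rw [hx]; exact F5 j (by omega) (by omega)
      have hk : h (cst t2) 0 = κ := by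
        have e1 : h x (a + 2 * r + R) = h (cst t2) 0 :=
          loc_cst Lh Ch fun j h1 h2 => hst j (by omega) (by omega)
        rw [← e1, hx]
        exact F5 _ (by omega) (by omega)
      have h2q : t2 = q := by
        refine Rc (fun i => if i < e - r - R then x i else t2) x2 e' he' t2 ht2 q hq
          ⟨min N (e - r - R - 1), ?_⟩ ⟨min N0 (a - 1), ?_⟩ ⟨e - r - R, ?_⟩ ⟨a, ?_⟩ ?_
        · intro i hi
          have h1 : i < e - r - R := by have := min_le_right N (e - r - R - 1); omega
          simp only [h1, if_true]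
          exact hxN i (by have := min_le_left N (e - r - R - 1); omega)
        · intro i hi
          have h1 : i < a := by have := min_le_right N0 (a - 1); omega
          simp only [hx2, h1, if_true]
          exact xsL i (by have := min_le_left N0 (a - 1); omega)
        · intro i hi
          have h1 : ¬ i < e - r - R := by omega
          simp only [h1, if_false]
        · intro i hi
          have h1 : ¬ i < a := by omega
          simp only [hx2, h1, if_false]
        · funext i
          by_cases hi : i < e - r - R - r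
          · have : h (fun i => if i < e - r - R then x i else t2) i = h x i := by
              refine Lh.2 _ _ _ fun j h1 h2 => ?_
              have : j < e - r - R := by omega
              simp only [this, if_true]
            rw [this, hx]
            by_cases hi2 : i < a + r
            · exact F8 i hi2
            · rw [F1 i (by omega)]
              exact F5 i (by omega) (by omega)
          · rw [F1 i (by omega), ← hk]
            refine loc_cst Lh Ch fun j h1 h2 => ?_
            by_cases hj : j < e - r - R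
            · simp only [hj, if_true]
              exact hst j (by omega) (by omega)
            · simp only [hj, if_false]
      subst h2q
      set x3 : ℤ → A := fun i => if i < a + r + R then t2 else x i with hx3
      have hx3' : ∀ i, h x3 i = h x1 (i - m) := by
        intro i
        by_cases hi : a + r + R + r ≤ i
        · have : h x3 i = h x i := by
            refine Lh.2 _ _ _ fun j h1 h2 => ?_
            have : ¬ j < a + r + R := by omega
            simp only [hx3, this, if_false]
          rw [this, hx]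
          exact F7 i (by omega)
        · rw [F2 i (by omega), ← hκq]
          refine loc_cst Lh Ch fun j h1 h2 => ?_
          by_cases hj : j < a + r + R
          · simp only [hx3, hj, if_true]
          · simp only [hx3, hj, if_false]
            exact hst j (by omega) (by omega)
      refine hno ⟨fun i => x3 (i + m), ⟨a + r + R - 1 - m, ?_⟩, ?_⟩
      · intro i hi
        have : i + m < a + r + R := by omega
        simp only [hx3, this, if_true]
      · rw [Ch.int x3 m]
        funext i
        rw [hx3']
        congr 1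
        ring
  have hcdom : c ∈ dom (h xs) := ⟨hc, xs, ⟨N0, xsL⟩, rfl⟩
  have hlt : (dom wn).ncard < (dom (h xs)).ncard := by
    calc (dom wn).ncard ≤ (dom (h xs) \ {c}).ncard := Set.ncard_le_ncard hsub (Set.toFinite _)
      _ < (dom (h xs)).ncard := by
        refine Set.ncard_lt_ncard ?_ (Set.toFinite _)
        refine ⟨Set.sdiff_subset, fun hcon => ?_⟩
        exact (hcon hcdom).2 rfl
  have := hmin wn hgood
  omega

end Pool.Agent.U20.CA
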