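import Pool.Agent.U20.CA.Tbl3

/-!
The cellular automaton of the rule is not a composition of one-sided closing automata.
-/

namespace Pool.Agent.U20.CA

open Pool.Agent.H624CA

/-- a coding of sequences of letters by configurations over another alphabet -/
structure Cod {A : Type} (T : ℕ → ℕ → ℕ → ℕ) (g : (ℤ → A) → (ℤ → A)) (h : (ℤ → ℕ) → (ℤ → A))
    (σ : ℕ × ℕ → A) : Prop where
  l : ∀ z p, LZ z p → LA (h z) (σ p)
  r : ∀ z p, RZ z p → RA (h z) (σ p)
  l' : ∀ z, (∀ k, z k ≤ 2) → ∀ p ∈ CC, LA (h z) (σ p) → LZ z p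
  im : ∀ z z', (∀ k, z k ≤ 2) → (∀ k, z' k ≤ 2) → Im T z' = Im T z → g (h z') = g (h z)
  pre : ∀ z, (∀ k, z k ≤ 2) → ∀ Y, g Y = g (h z) → ∃ y, (∀ k, y k ≤ 2) ∧ Y = h y ∧ Im T y = Im T z
  inj : ∀ z z', (∀ k, z k ≤ 2) → (∀ k, z' k ≤ 2) → h z = h z' → z = z'

lemma Cod.sep {A : Type} {T : ℕ → ℕ → ℕ → ℕ} {g : (ℤ → A) → (ℤ → A)} {h : (ℤ → ℕ) → (ℤ → A)}
    {σ : ℕ × ℕ → A} (H : Cod T g h σ) {P : Set A} (hP : ∀ p ∈ CC, σ p ∈ P) {s t : ℕ × ℕ}
    (ht : t ∈ CC) (hs : SepZ T s t) : SepR g P (σ s) (σ t) := by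
  obtain ⟨z, hz, hzs, ⟨u, hu, hzu⟩, hcase⟩ := hs
  refine ⟨h z, H.l z s hzs, ⟨σ u, hP u hu, H.r z u hzu⟩, ?_⟩
  rcases hcase with hno | ⟨z', hz', hzs', ⟨u', hu', hzu'⟩, hne, hI, huniq⟩
  · left
    rintro ⟨Y, hY, hgY⟩
    obtain ⟨y, hy, rfl, hyI⟩ := H.pre z hz Y hgY
    exact hno ⟨y, hy, H.l' y hy t ht hY, hyI⟩
  · right
    refine ⟨h z', H.l z' s hzs', ⟨σ u', hP u' hu', H.r z' u' hzu'⟩,
      fun e => hne (H.inj z z' hz hz' e), H.im z z' hz hz' hI, ?_⟩
    intro Y Y' hY hY' hg hg'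
    obtain ⟨y, hy, rfl, hyI⟩ := H.pre z hz Y hg
    obtain ⟨y', hy', rfl, hyI'⟩ := H.pre z hz Y' hg'
    rw [huniq y y' hy hy' (H.l' y hy t ht hY) (H.l' y' hy' t ht hY') hyI hyI']

section
attribute [local instance] Classical.propDecidable

variable {S : Type} (s0 s1 : S)

/-- the letters at the multiples of seven -/
noncomputable def zz (x : ℤ → S) : ℤ → ℕ := fun k => lt s0 s1 1 x (7 * k)

/-- two code words as a block -/
noncomputable def WB (p : ℕ × ℕ) : Fin 14 → S := fun j =>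
  if (j : ℕ) < 7 then Wd s0 s1 p.1 j else Wd s0 s1 p.2 ((j : ℕ) - 7)

/-- the automaton -/
noncomputable def ff : (ℤ → S) → (ℤ → S) := fT s0 s1 1 F

/-- the automaton on blocks of length fourteen -/
noncomputable def fh : (ℤ → (Fin 14 → S)) → (ℤ → (Fin 14 → S)) := hatl 14 (ff s0 s1)

/-- sequences of letters as sequences of blocks -/
noncomputable def hX (z : ℤ → ℕ) : ℤ → (Fin 14 → S) := fun i => WB s0 s1 (z (2 * i), z (2 * i + 1))

variable {s0 s1}

lemma zz_le (x : ℤ → S) (k : ℤ) : zz s0 s1 x k ≤ 3 := lt_le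

lemma blk (h01 : s0 ≠ s1) {X : ℤ → (Fin 14 → S)} {i : ℤ} {p : ℕ × ℕ} (h1 : p.1 ≤ 2)
    (h2 : p.2 ≤ 2) : X i = WB s0 s1 p ↔
      zz s0 s1 (Bil 14 X) (2 * i) = p.1 ∧ zz s0 s1 (Bil 14 X) (2 * i + 1) = p.2 := by
  unfold zz
  rw [lt_iff h01 h1, lt_iff h01 h2]
  unfold Ic
  constructor
  · intro h
    constructor
    · intro j hj
      have e : 7 * (2 * i) + (j : ℤ) = ((14 : ℕ) : ℤ) * i + (((⟨j, by omega⟩ : Fin 14) : ℕ) : ℤ) := by
        push_cast; ring
      rw [e, Bil_apply, h]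
      unfold WB
      simp only
      rw [if_pos (by omega)]
    · intro j hj
      have e : 7 * (2 * i + 1) + (j : ℤ) =
          ((14 : ℕ) : ℤ) * i + (((⟨j + 7, by omega⟩ : Fin 14) : ℕ) : ℤ) := by
        push_cast; ring
      rw [e, Bil_apply, h]
      unfold WB
      simp only
      rw [if_neg (by omega), Nat.add_sub_cancel]
  · rintro ⟨ha, hb⟩
    funext j
    rw [← Bil_apply (l := 14) X i j]
    unfold WB
    split_ifs with hj
    · rw [← ha j (by omega)]
      congr 1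
      push_cast; ring
    · rw [← hb ((j : ℕ) - 7) (by have := j.2; omega)]
      congr 1
      have : (((j : ℕ) - 7 : ℕ) : ℤ) = (j : ℕ) - 7 := by omega
      rw [this]
      push_cast; ring

lemma zz_ff (h01 : s0 ≠ s1) (x : ℤ → S) : zz s0 s1 (ff s0 s1 x) = Im F (zz s0 s1 x) := by
  funext k
  unfold zz ff Im
  rw [lt_fT h01 rule_F]
  unfold NT
  have e1 : 7 * k - (((1 : ℕ) : ℤ) + 6) = 7 * (k - 1) := by push_cast; ring
  have e2 : 7 * k + (((1 : ℕ) : ℤ) + 6) = 7 * (k + 1) := by push_cast; ring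
  rw [e1, e2]

lemma zz_hX (h01 : s0 ≠ s1) {z : ℤ → ℕ} (hz : ∀ k, z k ≤ 2) :
    zz s0 s1 (Bil 14 (hX s0 s1 z)) = z := by
  funext k
  rcases Int.emod_two_eq_zero_or_one k with h | h
  · have e : k = 2 * (k / 2) := by omega
    have := ((blk h01 (X := hX s0 s1 z) (i := k / 2) (p := (z (2 * (k / 2)), z (2 * (k / 2) + 1)))
      (hz _) (hz _)).1 rfl).1
    rw [← e] at this
    exact this
  · have e : k = 2 * (k / 2) + 1 := by omega
    have := ((blk h01 (X := hX s0 s1 z) (i := k / 2) (p := (z (2 * (k / 2)), z (2 * (k / 2) + 1)))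
      (hz _) (hz _)).1 rfl).2
    rw [← e] at this
    exact this

lemma Bil_fh (X : ℤ → (Fin 14 → S)) : Bil 14 (fh s0 s1 X) = ff s0 s1 (Bil 14 X) := Bil_Bll _

lemma zz_fh (h01 : s0 ≠ s1) (X : ℤ → (Fin 14 → S)) :
    zz s0 s1 (Bil 14 (fh s0 s1 X)) = Im F (zz s0 s1 (Bil 14 X)) := by
  rw [Bil_fh, zz_ff h01]

lemma Im_le {z : ℤ → ℕ} (hz : ∀ k, z k ≤ 2) (k : ℤ) : Im F z k ≤ 2 := by
  have h1 := hz (k - 1)
  have h2 := hz k
  have h3 := hz (k + 1)
  have := F4 (z (k - 1)) (by omega) (z k) (by omega) (z (k + 1)) (by omega)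
  unfold Im
  omega

/-- a block configuration whose letters are all at most two -/
lemma eq_hX (h01 : s0 ≠ s1) {X : ℤ → (Fin 14 → S)} (h : ∀ k, zz s0 s1 (Bil 14 X) k ≤ 2) :
    X = hX s0 s1 (zz s0 s1 (Bil 14 X)) := by
  funext i
  exact (blk h01 (h _) (h _)).2 ⟨rfl, rfl⟩

lemma fh_hX (h01 : s0 ≠ s1) {z : ℤ → ℕ} (hz : ∀ k, z k ≤ 2) :
    fh s0 s1 (hX s0 s1 z) = hX s0 s1 (Im F z) := by
  have e : zz s0 s1 (Bil 14 (fh s0 s1 (hX s0 s1 z))) = Im F z := by
    rw [zz_fh h01, zz_hX h01 hz]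
  have := eq_hX h01 (X := fh s0 s1 (hX s0 s1 z)) fun k => by rw [e]; exact Im_le hz k
  rw [e] at this
  exact this

lemma cod_F (h01 : s0 ≠ s1) : Cod F (fh s0 s1) (hX s0 s1) (WB s0 s1) where
  l := by
    rintro z p ⟨N, hN⟩
    exact ⟨N, fun i hi => by unfold hX; rw [(hN i hi).1, (hN i hi).2]⟩
  r := by
    rintro z p ⟨N, hN⟩
    exact ⟨N, fun i hi => by unfold hX; rw [(hN i hi).1, (hN i hi).2]⟩
  l' := by
    rintro z hz p hp ⟨N, hN⟩
    refine ⟨N, fun k hk => ?_⟩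
    have := (blk h01 (CC_le hp).1 (CC_le hp).2).1 (hN k hk)
    rw [zz_hX h01 hz] at this
    exact this
  im := by
    intro z z' hz hz' h
    rw [fh_hX h01 hz, fh_hX h01 hz', h]
  pre := by
    intro z hz Y hY
    have e : Im F (zz s0 s1 (Bil 14 Y)) = Im F z := by
      rw [← zz_fh h01, hY, fh_hX h01 hz, zz_hX h01 (Im_le hz)]
    have hle : ∀ k, zz s0 s1 (Bil 14 Y) k ≤ 2 := by
      intro k
      by_contra hc
      have h3 : zz s0 s1 (Bil 14 Y) k = 3 := by
        have := zz_le (s0 := s0) (s1 := s1) (Bil 14 Y) k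
        omega
      have h1 := zz_le (s0 := s0) (s1 := s1) (Bil 14 Y) (k - 1)
      have h2 := zz_le (s0 := s0) (s1 := s1) (Bil 14 Y) (k + 1)
      have h4 := congrFun e k
      have h5 := Im_le hz k
      rw [← h4] at h5
      unfold Im at h5
      rw [h3, F5 _ (by omega) _ (by omega)] at h5
      omega
    exact ⟨_, hle, eq_hX h01 hle, e⟩
  inj := by
    intro z z' hz hz' h
    rw [← zz_hX h01 hz, h, zz_hX h01 hz']

/-- reflection of sequences of letters -/
def rz (z : ℤ → ℕ) : ℤ → ℕ := fun k => z (1 - k)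

lemma rz_rz (z : ℤ → ℕ) : rz (rz z) = z := by
  funext k; unfold rz; congr 1; ring

lemma Im_rz (z : ℤ → ℕ) : Im F (rz z) = rz (Im G z) := by
  funext k
  unfold Im rz G
  have e1 : 1 - (k - 1) = 1 - k + 1 := by ring
  have e2 : 1 - (k + 1) = 1 - k - 1 := by ring
  rw [e1, e2]

lemma Im_rz' (z : ℤ → ℕ) : Im G (rz z) = rz (Im F z) := by
  have := Im_rz (rz z)
  rw [rz_rz] at this
  rw [this, rz_rz]

lemma cod_G (h01 : s0 ≠ s1) : Cod G (rh (fh s0 s1)) (fun z => rv (hX s0 s1 (rz z)))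
    (fun p => WB s0 s1 (p.2, p.1)) where
  l := by
    rintro z p ⟨N, hN⟩
    refine ⟨N, fun i hi => ?_⟩
    show WB s0 s1 (z (1 - 2 * -i), z (1 - (2 * -i + 1))) = _
    have e1 : 1 - 2 * -i = 2 * i + 1 := by ring
    have e2 : 1 - (2 * -i + 1) = 2 * i := by ring
    rw [e1, e2, (hN i hi).1, (hN i hi).2]
  r := by
    rintro z p ⟨N, hN⟩
    refine ⟨N, fun i hi => ?_⟩
    show WB s0 s1 (z (1 - 2 * -i), z (1 - (2 * -i + 1))) = _
    have e1 : 1 - 2 * -i = 2 * i + 1 := by ring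
    have e2 : 1 - (2 * -i + 1) = 2 * i := by ring
    rw [e1, e2, (hN i hi).1, (hN i hi).2]
  l' := by
    rintro z hz p hp ⟨N, hN⟩
    refine ⟨N, fun k hk => ?_⟩
    have h1 := hN k hk
    have h2 : hX s0 s1 (rz z) (-k) = WB s0 s1 (p.2, p.1) := h1
    have := (blk h01 (CC_le hp).2 (CC_le hp).1).1 h2
    rw [zz_hX h01 (z := rz z) (fun k => hz _)] at this
    unfold rz at this
    have e1 : 1 - 2 * -k = 2 * k + 1 := by ring
    have e2 : 1 - (2 * -k + 1) = 2 * k := by ring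
    rw [e1, e2] at this
    exact ⟨this.2, this.1⟩
  im := by
    intro z z' hz hz' h
    simp only [rh, rv_rv]
    rw [fh_hX h01 (z := rz z) (fun k => hz _), fh_hX h01 (z := rz z') (fun k => hz' _), Im_rz,
      Im_rz, h]
  pre := by
    intro z hz Y hY
    simp only [rh, rv_rv] at hY
    have hY' := rv_inj hY
    obtain ⟨w, hw, hw1, hw2⟩ := (cod_F h01).pre (rz z) (fun k => hz _) (rv Y) hY'
    refine ⟨rz w, fun k => hw _, ?_, ?_⟩
    · rw [rz_rz, ← hw1, rv_rv]
    · rw [Im_rz', hw2, Im_rz, rz_rz]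
  inj := by
    intro z z' hz hz' h
    have h1 := rv_inj h
    have h2 := (cod_F h01).inj (rz z) (rz z') (fun k => hz _) (fun k => hz' _) h1
    rw [← rz_rz z, h2, rz_rz]

lemma ff_surj [Finite S] (h01 : s0 ≠ s1) : Function.Surjective (ff s0 s1) :=
  fT_surj h01 rule_F F_pre

lemma ff_isCA (h01 : s0 ≠ s1) : IsCA (ff s0 s1) := fT_isCA h01 rule_F

/-- the blocks with constant image -/
def PP (s0 s1 : S) : Set (Fin 14 → S) := {a | ∃ p ∈ CC, a = WB s0 s1 p}

lemma cst_WB (p : ℕ × ℕ) : cst (WB s0 s1 p) = hX s0 s1 (fun k => if k % 2 = 0 then p.1 else p.2) := by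
  funext i
  show WB s0 s1 p = WB s0 s1 _
  have a3 : (2 * i) % 2 = 0 := by omega
  have a4 : ¬ (2 * i + 1) % 2 = 0 := by omega
  simp only [a3, a4, if_true, if_false]

lemma dat0 (h01 : s0 ≠ s1) : Dat0 (fh s0 s1) (WB s0 s1 (1, 1)) (PP s0 s1) 1 where
  pre := hatl_pre (fT_pre h01 rule_F F_pre)
  hD := by norm_num
  A0 := by
    rintro s ⟨p, hp, rfl⟩
    have hz : ∀ k : ℤ, (fun k : ℤ => if k % 2 = 0 then p.1 else p.2) k ≤ 2 := by
      intro k
      have := CC_le hp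
      simp only
      split_ifs
      · exact this.1
      · exact this.2
    rw [cst_WB, fh_hX h01 hz]
    have e : Im F (fun k : ℤ => if k % 2 = 0 then p.1 else p.2) = fun _ => 1 := by
      funext k
      unfold Im
      by_cases hp2 : k % 2 = 0
      · have b1 : ¬ (k - 1) % 2 = 0 := by omega
        have b3 : ¬ (k + 1) % 2 = 0 := by omega
        simp only [hp2, b1, b3, if_true, if_false]
        exact tab_F.one (p.2, p.1) (swapCC hp)
      · have b1 : (k - 1) % 2 = 0 := by omega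
        have b3 : (k + 1) % 2 = 0 := by omega
        simp only [hp2, b1, b3, if_true, if_false]
        exact tab_F.one p hp
    rw [e]
    rfl
  A1 := by
    intro X a b h
    have hz := zz_le (s0 := s0) (s1 := s1) (Bil 14 X)
    have hI : ∀ k, 2 * a ≤ k → k ≤ 2 * b + 1 → Im F (zz s0 s1 (Bil 14 X)) k = 1 := by
      intro k h1 h2
      have h3 := (blk h01 (X := fh s0 s1 X) (i := k / 2) (p := (1, 1)) (by norm_num)
        (by norm_num)).1 (h (k / 2) (by omega) (by omega))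
      rw [zz_fh h01] at h3
      rcases Int.emod_two_eq_zero_or_one k with hk | hk
      · have e : k = 2 * (k / 2) := by omega
        rw [e]; exact h3.1
      · have e : k = 2 * (k / 2) + 1 := by omega
        rw [e]; exact h3.2
    have hc : ∀ k, 2 * a + 2 ≤ k → k + 3 ≤ 2 * b + 1 →
        (zz s0 s1 (Bil 14 X) k, zz s0 s1 (Bil 14 X) (k + 1)) ∈ CC := fun k h1 h2 =>
      F_run _ hz k fun j h3 h4 => hI j (by omega) (by omega)
    by_cases hab : a + 1 ≤ b - 1
    · refine ⟨WB s0 s1 (zz s0 s1 (Bil 14 X) (2 * (a + 1)), zz s0 s1 (Bil 14 X) (2 * (a + 1) + 1)),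
        ⟨_, hc (2 * (a + 1)) (by omega) (by omega), rfl⟩, ?_⟩
      have key : ∀ i : ℕ, a + 1 + i ≤ b - 1 →
          zz s0 s1 (Bil 14 X) (2 * (a + 1 + i)) = zz s0 s1 (Bil 14 X) (2 * (a + 1)) ∧
          zz s0 s1 (Bil 14 X) (2 * (a + 1 + i) + 1) = zz s0 s1 (Bil 14 X) (2 * (a + 1) + 1) := by
        intro i
        induction i with
        | zero => intro _; simp
        | succ i ih =>
          intro hi
          push_cast at hi
          obtain ⟨i1, i2⟩ := ih (by omega)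
          have e1 : 2 * (a + 1 + ((i + 1 : ℕ) : ℤ)) = 2 * (a + 1 + i) + 1 + 1 := by push_cast; ring
          have c0 := hc (2 * (a + 1 + i)) (by omega) (by omega)
          have c1 := hc (2 * (a + 1 + i) + 1) (by omega) (by omega)
          have p1 := tab_F.per _ _ _ c0 c1 (by
            have := hI (2 * (a + 1 + i) + 1) (by omega) (by omega)
            unfold Im at this
            rw [add_sub_cancel_right] at this
            exact this)
          -- the last pair of the block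
          have p2 : zz s0 s1 (Bil 14 X) (2 * (a + 1 + i) + 1 + 1 + 1) =
              zz s0 s1 (Bil 14 X) (2 * (a + 1 + i) + 1) := by
            have c2 := hc (2 * (a + 1 + i) + 1 + 1) (by omega) (by omega)
            exact tab_F.per _ _ _ c1 c2 (by
              have := hI (2 * (a + 1 + i) + 1 + 1) (by omega) (by omega)
              unfold Im at this
              rw [add_sub_cancel_right] at this
              exact this)
          rw [e1]
          exact ⟨p1.trans i1, p2.trans i2⟩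
      intro i h1 h2
      have hk := key (i - (a + 1)).toNat (by omega)
      have e : a + 1 + ((i - (a + 1)).toNat : ℤ) = i := by omega
      rw [e] at hk
      have hcc := CC_le (hc (2 * (a + 1)) (by omega) (by omega))
      exact (blk h01 hcc.1 hcc.2).2 hk
    · exact ⟨WB s0 s1 (0, 0), ⟨_, by decide, rfl⟩, fun i h1 h2 => by omega⟩

lemma WB_inj (h01 : s0 ≠ s1) {p q : ℕ × ℕ} (hp : p ∈ CC) (hq : q ∈ CC)
    (h : WB s0 s1 p = WB s0 s1 q) : p = q := by
  have h1 := (blk h01 (X := cst (WB s0 s1 p)) (i := 0) (CC_le hp).1 (CC_le hp).2).1 rfl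
  have h2 := (blk h01 (X := cst (WB s0 s1 p)) (i := 0) (CC_le hq).1 (CC_le hq).2).1 h
  exact Prod.ext (h1.1.symm.trans h2.1) (h1.2.symm.trans h2.2)

lemma dat (h01 : s0 ≠ s1) : Dat (fh s0 s1) (WB s0 s1 (1, 1)) (PP s0 s1) 1 where
  toDat0 := dat0 h01
  A2R := by
    rintro s ⟨p, hp, rfl⟩ t ⟨q, hq, rfl⟩ hne
    have hpq : p ≠ q := fun e => hne (by rw [e])
    rcases sepF p hp q hq hpq with h | h
    · exact Or.inl ((cod_F h01).sep (P := PP s0 s1) (fun p hp => ⟨p, hp, rfl⟩) hq h)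
    · exact Or.inr ((cod_F h01).sep (P := PP s0 s1) (fun p hp => ⟨p, hp, rfl⟩) hp h)
  A2L := by
    rintro s ⟨p, hp, rfl⟩ t ⟨q, hq, rfl⟩ hne
    have hpq : (p.2, p.1) ≠ (q.2, q.1) := fun e => hne (by
      have e1 := congrArg Prod.fst e
      have e2 := congrArg Prod.snd e
      simp only at e1 e2
      have : p = q := Prod.ext e2 e1
      rw [this])
    rcases sepG _ (swapCC hp) _ (swapCC hq) hpq with h | h
    · exact Or.inl ((cod_G h01).sep (P := PP s0 s1) (fun p hp => ⟨_, swapCC hp, rfl⟩) (swapCC hq) h)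
    · exact Or.inr ((cod_G h01).sep (P := PP s0 s1) (fun p hp => ⟨_, swapCC hp, rfl⟩) (swapCC hp) h)

theorem fh_not [Finite S] (h01 : s0 ≠ s1) : ¬ Comp (fh s0 s1) := by
  refine not_comp3 (dat h01) (s := WB s0 s1 (0, 0)) (t := WB s0 s1 (1, 1)) ⟨_, by decide, rfl⟩
    ⟨_, by decide, rfl⟩ (fun e => ?_)
  have := WB_inj h01 (by decide) (by decide) e
  exact absurd this (by decide)

theorem ff_not [Finite S] (h01 : s0 ≠ s1) (k : ℕ) (b : Bool) : ff s0 s1 ∉ Lev S k b :=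
  fun hf => fh_not h01 (comp_of_compN (compN_of_lev (l := 14) k b _ hf))

lemma comp_of_list [Finite S] : ∀ L : List ((ℤ → S) → (ℤ → S)),
    (∀ g ∈ L, IsCA g ∧ (LeftClosing g ∨ RightClosing g)) →
    Comp (hatl 14 (L.foldr (fun g h => g ∘ h) id)) := by
  intro L
  induction L with
  | nil => intro _; rw [List.foldr_nil, hatl_id]; exact Comp.id
  | cons g L ih =>
    intro h
    obtain ⟨hg, hc⟩ := h g (by simp)
    obtain ⟨r, Lr⟩ := loc_of_cont hg.cont hg.comm
    rw [List.foldr_cons, hatl_comp]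
    refine Comp.step _ _ ⟨_, hatl_loc Lr⟩ (hatl_comm hg.comm) (hatl_surj (closing_surj' hg hc.symm))
      ?_ (ih fun g' hg' => h g' (by simp [hg']))
    rcases hc with hc | hc
    · exact Or.inr (hatl_left hc)
    · exact Or.inl (hatl_right hc)

end

/-- over every finite alphabet with at least two letters there is a surjective cellular automaton
outside all levels of the closing hierarchy -/
theorem main (S : Type) [Finite S] [Nontrivial S] :
    ∃ f : (ℤ → S) → (ℤ → S), IsCA f ∧ Function.Surjective f ∧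
      (∀ k : ℕ, f ∉ Lev S k true ∧ f ∉ Lev S k false) ∧
      ∀ L : List ((ℤ → S) → (ℤ → S)), (∀ g ∈ L, IsCA g ∧ (LeftClosing g ∨ RightClosing g)) →
        L.foldr (fun g h => g ∘ h) id ≠ f := by
  obtain ⟨s0, s1, h01⟩ := exists_pair_ne S
  refine ⟨ff s0 s1, ff_isCA h01, ff_surj h01, fun k => ⟨ff_not h01 k true, ff_not h01 k false⟩,
    fun L hL e => fh_not h01 ?_⟩
  have := comp_of_list L hL
  rwa [e] at this

end Pool.Agent.U20.CA
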