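import Pool.Agent.U20.CA.Code3

/-!
The rule on letters and its finite verification.
-/

namespace Pool.Agent.U20.CA

open Pool.Agent.H624CA

/-- the pairs of letters of the two-periodic sequences with image `1 1 1 ...` -/
def CC : List (ℕ × ℕ) := [(0, 0), (0, 1), (1, 0), (1, 1), (2, 2)]

/-- `z` has the left end `p` -/
def LZ (z : ℤ → ℕ) (p : ℕ × ℕ) : Prop := ∃ N : ℤ, ∀ k, k ≤ N → z (2 * k) = p.1 ∧ z (2 * k + 1) = p.2

/-- `z` has the right end `p` -/
def RZ (z : ℤ → ℕ) (p : ℕ × ℕ) : Prop := ∃ N : ℤ, ∀ k, N ≤ k → z (2 * k) = p.1 ∧ z (2 * k + 1) = p.2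

/-- separation of left ends on sequences of letters -/
def SepZ (T : ℕ → ℕ → ℕ → ℕ) (s t : ℕ × ℕ) : Prop :=
  ∃ z : ℤ → ℕ, (∀ k, z k ≤ 2) ∧ LZ z s ∧ (∃ u ∈ CC, RZ z u) ∧
    ((¬ ∃ y : ℤ → ℕ, (∀ k, y k ≤ 2) ∧ LZ y t ∧ Im T y = Im T z) ∨
      (∃ z' : ℤ → ℕ, (∀ k, z' k ≤ 2) ∧ LZ z' s ∧ (∃ u' ∈ CC, RZ z' u') ∧ z ≠ z' ∧
        Im T z' = Im T z ∧ ∀ y y' : ℤ → ℕ, (∀ k, y k ≤ 2) → (∀ k, y' k ≤ 2) → LZ y t → LZ y' t →
          Im T y = Im T z → Im T y' = Im T z → y = y'))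

/-- transitions of pairs of letters with a given new letter -/
def stp (T : ℕ → ℕ → ℕ → ℕ) (L : List (ℕ × ℕ)) (l : ℕ) : List (ℕ × ℕ) :=
  L.flatMap fun p => ((List.range 3).filter fun c => T p.1 p.2 c = l).map fun c => (p.2, c)

lemma mem_stp {T : ℕ → ℕ → ℕ → ℕ} {L : List (ℕ × ℕ)} {l a b c : ℕ} (h : (a, b) ∈ L) (hc : c ≤ 2)
    (hl : T a b c = l) : (b, c) ∈ stp T L l := by
  unfold stp
  rw [List.mem_flatMap]
  refine ⟨(a, b), h, ?_⟩
  rw [List.mem_map]
  refine ⟨c, ?_, rfl⟩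
  rw [List.mem_filter, List.mem_range]
  exact ⟨by omega, by simpa using hl⟩

lemma evolve {T : ℕ → ℕ → ℕ → ℕ} {y : ℤ → ℕ} (hy : ∀ k, y k ≤ 2) : ∀ (ws : List ℕ)
    (L : List (ℕ × ℕ)) (k : ℤ), (y (k - 1), y k) ∈ L →
    (∀ j (hj : j < ws.length), Im T y (k + j) = ws[j]) →
    (y (k + ws.length - 1), y (k + ws.length)) ∈ ws.foldl (stp T) L := by
  intro ws
  induction ws with
  | nil => intro L k h _; simpa using h
  | cons w ws ih =>
    intro L k h hw
    have h0 : Im T y k = w := by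
      have := hw 0 (by simp)
      rw [List.getElem_cons_zero] at this
      simpa using this
    have h1 : (y (k + 1 - 1), y (k + 1)) ∈ stp T L w := by
      rw [add_sub_cancel_right]
      exact mem_stp h (hy _) h0
    have h2 := ih (stp T L w) (k + 1) h1 fun j hj => by
      have := hw (j + 1) (by simp; omega)
      rw [List.getElem_cons_succ] at this
      rw [← this]
      congr 1
      push_cast; ring
    have e : k + ((w :: ws).length : ℤ) = k + 1 + (ws.length : ℤ) := by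
      simp only [List.length_cons]; push_cast; ring
    rw [e]
    exact h2

/-- facts about a rule and its sets of pairs of letters -/
structure Tab (T : ℕ → ℕ → ℕ → ℕ) (E : ℕ × ℕ → List (ℕ × ℕ)) : Prop where
  one : ∀ p ∈ CC, T p.1 p.2 p.1 = 1
  start : ∀ p ∈ CC, p ∈ E p
  clo : ∀ p ∈ CC, ∀ v ∈ stp T (E p) 1, v ∈ E (p.2, p.1)
  per : ∀ a b c, (a, b) ∈ CC → (b, c) ∈ CC → T a b c = 1 → c = a
  run : ∀ z : ℤ → ℕ, (∀ k, z k ≤ 3) → ∀ k, (∀ j, k - 2 ≤ j → j ≤ k + 3 → Im T z j = 1) →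
    (z k, z (k + 1)) ∈ CC
  pre : ZPre 1 T

lemma swapCC {p : ℕ × ℕ} (h : p ∈ CC) : (p.2, p.1) ∈ CC := by
  have : ∀ p ∈ CC, (p.2, p.1) ∈ CC := by decide
  exact this p h

lemma tailE {T : ℕ → ℕ → ℕ → ℕ} {E : ℕ × ℕ → List (ℕ × ℕ)} (H : Tab T E) {y : ℤ → ℕ}
    (hy : ∀ k, y k ≤ 2) {t : ℕ × ℕ} (ht : t ∈ CC) (hL : LZ y t)
    (h1 : ∀ k, k ≤ -2 → Im T y k = 1) : (y (-2), y (-1)) ∈ E t := by
  obtain ⟨N, hN⟩ := hL
  obtain ⟨M, hM1, hM2⟩ : ∃ M : ℤ, M ≤ N ∧ M ≤ -1 := ⟨min N (-1), min_le_left _ _, min_le_right _ _⟩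
  have key : ∀ i : ℕ, M + i ≤ -1 → (y (2 * (M + i)), y (2 * (M + i) + 1)) ∈ E t := by
    intro i
    induction i with
    | zero =>
      intro _
      simp only [Nat.cast_zero, add_zero]
      rw [(hN M hM1).1, (hN M hM1).2]
      exact H.start t ht
    | succ i ih =>
      intro hi
      push_cast at hi
      have h2 := ih (by omega)
      have h3 : (y (2 * (M + i) + 1), y (2 * (M + i) + 2)) ∈ E (t.2, t.1) := by
        refine H.clo t ht _ (mem_stp h2 (hy _) ?_)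
        have := h1 (2 * (M + i) + 1) (by omega)
        unfold Im at this
        rw [show 2 * (M + (i : ℤ)) + 1 - 1 = 2 * (M + i) by ring,
          show 2 * (M + (i : ℤ)) + 1 + 1 = 2 * (M + i) + 2 by ring] at this
        exact this
      have h4 : (y (2 * (M + i) + 2), y (2 * (M + i) + 3)) ∈ E (t.1, t.2) := by
        refine H.clo (t.2, t.1) (swapCC ht) _ (mem_stp h3 (hy _) ?_)
        have := h1 (2 * (M + i) + 2) (by omega)
        unfold Im at this
        rw [show 2 * (M + (i : ℤ)) + 2 - 1 = 2 * (M + i) + 1 by ring,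
          show 2 * (M + (i : ℤ)) + 2 + 1 = 2 * (M + i) + 3 by ring] at this
        exact this
      have e1 : 2 * (M + ((i + 1 : ℕ) : ℤ)) = 2 * (M + i) + 2 := by push_cast; ring
      rw [e1, show 2 * (M + (i : ℤ)) + 2 + 1 = 2 * (M + i) + 3 by ring]
      exact h4
  have := key (-1 - M).toNat (by omega)
  have e : M + ((-1 - M).toNat : ℤ) = -1 := by omega
  rw [e] at this
  exact this

/-- a sequence with ends `s` and `u` and the middle part `m` -/
def zq (s : ℕ × ℕ) (m : List ℕ) (u : ℕ × ℕ) : ℤ → ℕ := fun k =>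
  if k < 0 then (if k % 2 = 0 then s.1 else s.2)
  else if k < m.length then m.getD k.toNat 0 else (if k % 2 = 0 then u.1 else u.2)

/-- the image letters around the middle part -/
def lab (T : ℕ → ℕ → ℕ → ℕ) (s : ℕ × ℕ) (m : List ℕ) (u : ℕ × ℕ) : List ℕ :=
  (List.range (m.length + 2)).map fun j : ℕ => Im T (zq s m u) ((j : ℤ) - 1)

lemma CC_le {p : ℕ × ℕ} (h : p ∈ CC) : p.1 ≤ 2 ∧ p.2 ≤ 2 := by
  have : ∀ p ∈ CC, p.1 ≤ 2 ∧ p.2 ≤ 2 := by decide
  exact this p h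

lemma zq_le {s : ℕ × ℕ} {m : List ℕ} {u : ℕ × ℕ} (hs : s ∈ CC) (hu : u ∈ CC)
    (hm : ∀ a ∈ m, a ≤ 2) (k : ℤ) : zq s m u k ≤ 2 := by
  have h1 := CC_le hs
  have h2 := CC_le hu
  unfold zq
  split_ifs with a b c d
  · exact h1.1
  · exact h1.2
  · have hk : k.toNat < m.length := by omega
    rw [List.getD_eq_getElem _ _ hk]
    exact hm _ (List.getElem_mem hk)
  · exact h2.1
  · exact h2.2

lemma zq_LZ (s : ℕ × ℕ) (m : List ℕ) (u : ℕ × ℕ) : LZ (zq s m u) s := by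
  refine ⟨-1, fun k hk => ?_⟩
  unfold zq
  have a1 : 2 * k < 0 := by omega
  have a2 : 2 * k + 1 < 0 := by omega
  have a3 : (2 * k) % 2 = 0 := by omega
  have a4 : ¬ (2 * k + 1) % 2 = 0 := by omega
  simp only [a1, a2, a3, a4, if_true, if_false, and_self]

lemma zq_RZ (s : ℕ × ℕ) (m : List ℕ) (u : ℕ × ℕ) : RZ (zq s m u) u := by
  refine ⟨m.length, fun k hk => ?_⟩
  unfold zq
  have a1 : ¬ 2 * k < 0 := by omega
  have a2 : ¬ 2 * k + 1 < 0 := by omega
  have a3 : (2 * k) % 2 = 0 := by omega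
  have a4 : ¬ (2 * k + 1) % 2 = 0 := by omega
  have a5 : ¬ 2 * k < m.length := by omega
  have a6 : ¬ 2 * k + 1 < m.length := by omega
  simp only [a1, a2, a3, a4, a5, a6, if_true, if_false, and_self]

lemma Im_left {T : ℕ → ℕ → ℕ → ℕ} {E : ℕ × ℕ → List (ℕ × ℕ)} (H : Tab T E) {s : ℕ × ℕ}
    (hs : s ∈ CC) (m : List ℕ) (u : ℕ × ℕ) {k : ℤ} (hk : k ≤ -2) : Im T (zq s m u) k = 1 := by
  unfold Im zq
  have a1 : k - 1 < 0 := by omega
  have a2 : k < 0 := by omega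
  have a3 : k + 1 < 0 := by omega
  by_cases hp : k % 2 = 0
  · have b1 : ¬ (k - 1) % 2 = 0 := by omega
    have b3 : ¬ (k + 1) % 2 = 0 := by omega
    simp only [a1, a2, a3, hp, b1, b3, if_true, if_false]
    exact H.one (s.2, s.1) (swapCC hs)
  · have b1 : (k - 1) % 2 = 0 := by omega
    have b3 : (k + 1) % 2 = 0 := by omega
    simp only [a1, a2, a3, hp, b1, b3, if_true, if_false]
    exact H.one s hs

lemma Im_right {T : ℕ → ℕ → ℕ → ℕ} {E : ℕ × ℕ → List (ℕ × ℕ)} (H : Tab T E) (s : ℕ × ℕ)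
    (m : List ℕ) {u : ℕ × ℕ} (hu : u ∈ CC) {k : ℤ} (hk : m.length + 1 ≤ k) :
    Im T (zq s m u) k = 1 := by
  unfold Im zq
  have a1 : ¬ k - 1 < 0 := by omega
  have a2 : ¬ k < 0 := by omega
  have a3 : ¬ k + 1 < 0 := by omega
  have c1 : ¬ k - 1 < m.length := by omega
  have c2 : ¬ k < m.length := by omega
  have c3 : ¬ k + 1 < m.length := by omega
  by_cases hp : k % 2 = 0
  · have b1 : ¬ (k - 1) % 2 = 0 := by omega
    have b3 : ¬ (k + 1) % 2 = 0 := by omega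
    simp only [a1, a2, a3, c1, c2, c3, hp, b1, b3, if_true, if_false]
    exact H.one (u.2, u.1) (swapCC hu)
  · have b1 : (k - 1) % 2 = 0 := by omega
    have b3 : (k + 1) % 2 = 0 := by omega
    simp only [a1, a2, a3, c1, c2, c3, hp, b1, b3, if_true, if_false]
    exact H.one u hu

lemma reach {T : ℕ → ℕ → ℕ → ℕ} {E : ℕ × ℕ → List (ℕ × ℕ)} (H : Tab T E) {s t u : ℕ × ℕ}
    {m : List ℕ} (hs : s ∈ CC) (ht : t ∈ CC) {y : ℤ → ℕ} (hy : ∀ k, y k ≤ 2) (hL : LZ y t)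
    (hI : Im T y = Im T (zq s m u)) :
    (y (m.length : ℤ), y (m.length + 1)) ∈ (lab T s m u).foldl (stp T) (E t) := by
  have h1 := tailE H hy ht hL fun k hk => by rw [hI]; exact Im_left H hs m u hk
  have h2 := evolve hy (T := T) (lab T s m u) (E t) (-1) (by norm_num; exact h1) fun j hj => by
    rw [hI]
    unfold lab
    rw [List.getElem_map, List.getElem_range]
    exact congrArg _ (by ring)
  have e : ((lab T s m u).length : ℤ) = m.length + 2 := by
    unfold lab; simp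
  rw [e] at h2
  have e1 : -1 + ((m.length : ℤ) + 2) - 1 = m.length := by ring
  have e2 : -1 + ((m.length : ℤ) + 2) = m.length + 1 := by ring
  rw [e1, e2] at h2
  exact h2

lemma sep_zero {T : ℕ → ℕ → ℕ → ℕ} {E : ℕ × ℕ → List (ℕ × ℕ)} (H : Tab T E) {s t u : ℕ × ℕ}
    {m : List ℕ} (hs : s ∈ CC) (ht : t ∈ CC) (hu : u ∈ CC) (hm : ∀ a ∈ m, a ≤ 2)
    (h0 : (lab T s m u).foldl (stp T) (E t) = []) : SepZ T s t := by
  refine ⟨zq s m u, zq_le hs hu hm, zq_LZ s m u, ⟨u, hu, zq_RZ s m u⟩, Or.inl ?_⟩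
  rintro ⟨y, hy, hL, hI⟩
  have := reach H hs ht hy hL hI
  rw [h0] at this
  exact List.not_mem_nil this

lemma sep_two {T : ℕ → ℕ → ℕ → ℕ} {E : ℕ × ℕ → List (ℕ × ℕ)} (H : Tab T E) {s t u u' v0 : ℕ × ℕ}
    {m m' : List ℕ} (hs : s ∈ CC) (ht : t ∈ CC) (hu : u ∈ CC) (hu' : u' ∈ CC)
    (hm : ∀ a ∈ m, a ≤ 2) (hm' : ∀ a ∈ m', a ≤ 2) (hlen : m'.length = m.length)
    (hlab : lab T s m' u' = lab T s m u) (k0 : ℤ) (hk0 : zq s m u k0 ≠ zq s m' u' k0)
    (h0 : ∀ v ∈ stp T (stp T (stp T ((lab T s m u).foldl (stp T) (E t)) 1) 1) 1, v ∈ CC → v = v0) :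
    SepZ T s t := by
  have hII : Im T (zq s m' u') = Im T (zq s m u) := by
    funext k
    by_cases h1 : k ≤ -2
    · rw [Im_left H hs _ _ h1, Im_left H hs _ _ h1]
    · by_cases h2 : m.length + 1 ≤ k
      · rw [Im_right H s m hu h2, Im_right H s m' hu' (by rw [hlen]; exact h2)]
      · have hj : (k + 1).toNat < m.length + 2 := by omega
        have e1 : (lab T s m' u')[(k + 1).toNat]? = (lab T s m u)[(k + 1).toNat]? := by rw [hlab]
        unfold lab at e1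
        rw [List.getElem?_map, List.getElem?_map, List.getElem?_range (by rw [hlen]; exact hj),
          List.getElem?_range hj] at e1
        simp only [Option.map_some, Option.some.injEq] at e1
        have e2 : (((k + 1).toNat : ℕ) : ℤ) - 1 = k := by omega
        rw [e2] at e1
        exact e1
  refine ⟨zq s m u, zq_le hs hu hm, zq_LZ s m u, ⟨u, hu, zq_RZ s m u⟩, Or.inr
    ⟨zq s m' u', zq_le hs hu' hm', zq_LZ s m' u', ⟨u', hu', zq_RZ s m' u'⟩,
      fun h => hk0 (congrFun h k0), hII, ?_⟩⟩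
  intro y y' hy hy' hL hL' hI hI'
  have hfar : ∀ w : ℤ → ℕ, (∀ k, w k ≤ 2) → LZ w t → Im T w = Im T (zq s m u) →
      (w (m.length + 3), w (m.length + 4)) = v0 ∧
      ∀ k : ℤ, m.length + 4 ≤ k → w (k + 1) = w (k - 1) := by
    intro w hw hLw hIw
    have g1 := reach H hs ht hw hLw hIw
    have o : ∀ k : ℤ, m.length + 1 ≤ k → Im T w k = 1 := by
      intro k hk
      rw [hIw]; exact Im_right H s m hu hk
    have stepk : ∀ (k : ℤ) (L : List (ℕ × ℕ)), (w (k - 1), w k) ∈ L → m.length + 1 ≤ k →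
        (w k, w (k + 1)) ∈ stp T L 1 := fun k L h hk => mem_stp h (hw _) (o k hk)
    have cc : ∀ k : ℤ, m.length + 3 ≤ k → (w k, w (k + 1)) ∈ CC := by
      intro k hk
      exact H.run w (fun j => (hw j).trans (by norm_num)) k fun j h1 _ => o j (by omega)
    have g2 := stepk (m.length + 1) _ (by rw [add_sub_cancel_right]; exact g1) le_rfl
    have g3 := stepk (m.length + 1 + 1) _ (by rw [add_sub_cancel_right]; exact g2) (by omega)
    have g4 := stepk (m.length + 1 + 1 + 1) _ (by rw [add_sub_cancel_right]; exact g3) (by omega)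
    have e1 : (m.length : ℤ) + 1 + 1 + 1 = m.length + 3 := by ring
    have e2 : (m.length : ℤ) + 3 + 1 = m.length + 4 := by ring
    rw [e1, e2] at g4
    refine ⟨h0 _ g4 ?_, ?_⟩
    · have := cc (m.length + 3) le_rfl
      rwa [e2] at this
    · intro k hk
      have c1 := cc (k - 1) (by omega)
      rw [sub_add_cancel] at c1
      exact H.per _ _ _ c1 (cc k (by omega)) (o k (by omega))
  obtain ⟨a1, a2⟩ := hfar y hy hL hI
  obtain ⟨b1, b2⟩ := hfar y' hy' hL' hI'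
  have hab := a1.trans b1.symm
  simp only [Prod.mk.injEq] at hab
  have keyR : ∀ i : ℕ, y (m.length + 3 + i) = y' (m.length + 3 + i) ∧
      y (m.length + 4 + i) = y' (m.length + 4 + i) := by
    intro i
    induction i with
    | zero => simpa using hab
    | succ i ih =>
      have e1 : (m.length : ℤ) + 3 + ((i + 1 : ℕ) : ℤ) = m.length + 4 + i := by push_cast; ring
      have e2 : (m.length : ℤ) + 4 + ((i + 1 : ℕ) : ℤ) = m.length + 4 + i + 1 := by push_cast; ring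
      rw [e1, e2]
      refine ⟨ih.2, ?_⟩
      rw [a2 _ (by omega), b2 _ (by omega)]
      have e3 : (m.length : ℤ) + 4 + i - 1 = m.length + 3 + i := by ring
      rw [e3]
      exact ih.1
  obtain ⟨N1, hN1⟩ := hL
  obtain ⟨N2, hN2⟩ := hL'
  refine H.pre y y' (fun k => (hy k).trans (by norm_num)) (fun k => (hy' k).trans (by norm_num))
    ⟨2 * min N1 N2, fun k hk => ?_⟩ ⟨m.length + 3, fun k hk => ?_⟩ (hI.trans hI'.symm)
  · have l1 := min_le_left N1 N2
    have l2 := min_le_right N1 N2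
    rcases Int.emod_two_eq_zero_or_one k with h | h
    · have e : k = 2 * (k / 2) := by omega
      rw [e, (hN1 (k / 2) (by omega)).1, (hN2 (k / 2) (by omega)).1]
    · have e : k = 2 * (k / 2) + 1 := by omega
      rw [e, (hN1 (k / 2) (by omega)).2, (hN2 (k / 2) (by omega)).2]
  · have := (keyR (k - (m.length + 3)).toNat).1
    have e : (m.length : ℤ) + 3 + ((k - (m.length + 3)).toNat : ℤ) = k := by omega
    rw [e] at this
    exact this

end Pool.Agent.U20.CA
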