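import Pool.Agent.U20.CA.Let3

/-!
The rule, its mirror image, and the separation of all ends.
-/

namespace Pool.Agent.U20.CA

open Pool.Agent.H624CA

/-- the values of the rule; the entry of `(a, b, c)` has the position `16 a + 4 b + c` -/
def tb : List ℕ :=
  [1, 2, 2, 2, 1, 2, 0, 2, 0, 0, 1, 0, 3, 3, 3, 3,
   2, 1, 2, 1, 2, 1, 0, 1, 0, 1, 2, 1, 3, 3, 3, 3,
   2, 0, 1, 0, 1, 2, 0, 2, 0, 0, 1, 0, 3, 3, 3, 3,
   0, 2, 0, 0, 2, 0, 1, 1, 1, 1, 2, 2, 3, 3, 3, 3]

/-- the rule of radius one on the letters `0, 1, 2` and the wall `3` -/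
def F (a b c : ℕ) : ℕ := tb.getD (16 * a + 4 * b + c) 3

/-- the mirror image of the rule -/
def G (a b c : ℕ) : ℕ := F c b a

/-- pairs of states that can follow a disagreement -/
def RR (a b c d : ℕ) : Bool := Nat.testBit
  50660253770588187258400583235942794354104446932148109147204963030152014202028
  (((a * 4 + b) * 4 + c) * 4 + d)

set_option synthInstance.maxSize 4000 in
lemma F0 : ∀ a < 4, ∀ b < 4, ∀ c < 4, ∀ d < 4, c ≠ d → F a b c = F a b d → RR b c b d = true := by
  decide +kernel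

set_option synthInstance.maxSize 4000 in
lemma F1 : ∀ a < 4, ∀ b < 4, ∀ a' < 4, ∀ b' < 4, RR a b a' b' = true → ∀ c < 4, ∀ d < 4,
    F a b c = F a' b' d → RR b c b' d = true := by
  decide +kernel

lemma F2 : ∀ a < 4, ∀ b < 4, RR a b a b = false := by
  decide +kernel

set_option synthInstance.maxSize 4000 in
lemma F3 : ∀ a < 4, ∀ b < 4, ∀ c < 4, ∀ d < 4, ∀ e < 4, ∀ g < 4,
    (F a b c = 1 ∧ F b c d = 1 ∧ F c d e = 1 ∧ F d e g = 1) → (d, e) ∈ CC := by
  decide +kernel

set_option synthInstance.maxSize 4000 in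
lemma G3 : ∀ a < 4, ∀ b < 4, ∀ c < 4, ∀ d < 4, ∀ e < 4, ∀ g < 4,
    (G a b c = 1 ∧ G b c d = 1 ∧ G c d e = 1 ∧ G d e g = 1) → (b, c) ∈ CC := by
  decide +kernel

lemma F4 : ∀ a < 4, ∀ b < 3, ∀ c < 4, F a b c < 3 := by
  decide +kernel

lemma F5 : ∀ a < 4, ∀ c < 4, F a 3 c = 3 := by
  decide +kernel

lemma rule_F : Rule 1 F where
  le a b c ha hb hc := by
    have := F4 a (by omega) b (by omega) c (by omega)
    omega
  top a c ha hc := F5 a (by omega) c (by omega)

lemma F_pre : ZPre 1 F := by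
  rintro z z' hz hz' ⟨N, hN⟩ ⟨M, hM⟩ h
  by_contra hne
  have hk1 : ∃ k, z k ≠ z' k := by
    by_contra hc
    push Not at hc
    exact hne (funext hc)
  obtain ⟨k0, hk0, hmin⟩ := Int.exists_least_of_bdd (P := fun k => z k ≠ z' k)
    ⟨N, fun k hk => by
      by_contra hc
      exact hk (hN k (by omega))⟩ hk1
  have heq : ∀ k, k < k0 → z k = z' k := by
    intro k hk
    by_contra hc
    have := hmin k hc
    omega
  have b : ∀ k, z k < 4 := fun k => by have := hz k; omega
  have b' : ∀ k, z' k < 4 := fun k => by have := hz' k; omega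
  have key : ∀ i : ℕ, RR (z (k0 + i - 1)) (z (k0 + i)) (z' (k0 + i - 1)) (z' (k0 + i)) = true := by
    intro i
    induction i with
    | zero =>
      have h1 := congrFun h (k0 - 1)
      unfold Im at h1
      rw [sub_add_cancel, ← heq (k0 - 1 - 1) (by omega), ← heq (k0 - 1) (by omega)] at h1
      simp only [Nat.cast_zero, add_zero]
      rw [← heq (k0 - 1) (by omega)]
      exact F0 _ (b (k0 - 1 - 1)) _ (b _) _ (b _) _ (b' _) hk0 h1
    | succ i ih =>
      have h1 := congrFun h (k0 + i)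
      unfold Im at h1
      have e1 : k0 + ((i + 1 : ℕ) : ℤ) - 1 = k0 + i := by push_cast; ring
      have e2 : k0 + ((i + 1 : ℕ) : ℤ) = k0 + i + 1 := by push_cast; ring
      rw [e1, e2]
      exact F1 _ (b _) _ (b _) _ (b' _) _ (b' _) ih _ (b _) _ (b' _) h1
  have h3 := key (M - k0 + 1).toNat
  have e0 : M ≤ k0 + ((M - k0 + 1).toNat : ℤ) - 1 := by omega
  rw [← hM _ e0, ← hM (k0 + ((M - k0 + 1).toNat : ℤ)) (by omega), F2 _ (b _) _ (b _)] at h3
  exact Bool.false_ne_true h3

lemma G_pre : ZPre 1 G := by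
  rintro z z' hz hz' ⟨N, hN⟩ ⟨M, hM⟩ h
  have key := F_pre (fun k => z (-k)) (fun k => z' (-k)) (fun k => hz _) (fun k => hz' _)
    ⟨-M, fun k hk => hM _ (by omega)⟩ ⟨-N, fun k hk => hN _ (by omega)⟩ (by
      funext k
      have h1 := congrFun h (-k)
      unfold Im G at h1
      unfold Im
      have e1 : -(k - 1) = -k + 1 := by ring
      have e2 : -(k + 1) = -k - 1 := by ring
      simp only [e1, e2]
      exact h1)
  funext k
  have := congrFun key (-k)
  simpa using this

lemma F_run : ∀ z : ℤ → ℕ, (∀ k, z k ≤ 3) → ∀ k, (∀ j, k - 2 ≤ j → j ≤ k + 3 → Im F z j = 1) →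
    (z k, z (k + 1)) ∈ CC := by
  intro z hz k h
  have b : ∀ k, z k < 4 := fun k => by have := hz k; omega
  have h1 := h (k - 2) (by omega) (by omega)
  have h2 := h (k - 1) (by omega) (by omega)
  have h3 := h k (by omega) (by omega)
  have h4 := h (k + 1) (by omega) (by omega)
  unfold Im at h1 h2 h3 h4
  rw [show k - 2 - 1 = k - 3 by ring, show k - 2 + 1 = k - 1 by ring] at h1
  rw [show k - 1 - 1 = k - 2 by ring, sub_add_cancel] at h2
  rw [add_sub_cancel_right] at h4
  exact F3 _ (b _) _ (b _) _ (b _) _ (b _) _ (b _) _ (b _) ⟨h1, h2, h3, h4⟩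

lemma G_run : ∀ z : ℤ → ℕ, (∀ k, z k ≤ 3) → ∀ k, (∀ j, k - 2 ≤ j → j ≤ k + 3 → Im G z j = 1) →
    (z k, z (k + 1)) ∈ CC := by
  intro z hz k h
  have b : ∀ k, z k < 4 := fun k => by have := hz k; omega
  have h1 := h k (by omega) (by omega)
  have h2 := h (k + 1) (by omega) (by omega)
  have h3 := h (k + 2) (by omega) (by omega)
  have h4 := h (k + 3) (by omega) (by omega)
  unfold Im at h1 h2 h3 h4
  rw [add_sub_cancel_right, show k + 1 + 1 = k + 2 by ring] at h2
  rw [show k + 2 - 1 = k + 1 by ring, show k + 2 + 1 = k + 3 by ring] at h3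
  rw [show k + 3 - 1 = k + 2 by ring, show k + 3 + 1 = k + 4 by ring] at h4
  exact G3 _ (b _) _ (b _) _ (b _) _ (b _) _ (b _) _ (b _) ⟨h1, h2, h3, h4⟩

/-- pairs that can end a left part of `F` -/
def EF (p : ℕ × ℕ) : List (ℕ × ℕ) := [p]

/-- pairs that can end a left part of `G` -/
def EG (p : ℕ × ℕ) : List (ℕ × ℕ) :=
  if p = (0, 1) then [(0, 1), (2, 1)] else if p = (1, 0) then [(1, 0), (1, 2)]
  else if p = (2, 2) then [(0, 2), (2, 0), (2, 2)] else [p]

lemma tab_F : Tab F EF where
  one := by decide +kernel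
  start := by decide +kernel
  clo := by decide +kernel
  per := by
    have h : ∀ p ∈ CC, ∀ q ∈ CC, p.2 = q.1 → F p.1 p.2 q.2 = 1 → q.2 = p.1 := by decide +kernel
    intro a b c h1 h2 h3
    exact h (a, b) h1 (b, c) h2 rfl h3
  run := F_run
  pre := F_pre

lemma tab_G : Tab G EG where
  one := by decide +kernel
  start := by decide +kernel
  clo := by decide +kernel
  per := by
    have h : ∀ p ∈ CC, ∀ q ∈ CC, p.2 = q.1 → G p.1 p.2 q.2 = 1 → q.2 = p.1 := by decide +kernel
    intro a b c h1 h2 h3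
    exact h (a, b) h1 (b, c) h2 rfl h3
  run := G_run
  pre := G_pre

section sepF

lemma f1 : SepZ F (0, 1) (0, 0) := sep_zero tab_F (m := []) (u := (2, 2)) (by decide) (by decide)
  (by decide) (by decide) (by decide +kernel)
lemma f2 : SepZ F (1, 0) (0, 0) := sep_zero tab_F (m := [1]) (u := (2, 2)) (by decide) (by decide)
  (by decide) (by decide) (by decide +kernel)
lemma f3 : SepZ F (1, 1) (0, 0) := sep_zero tab_F (m := []) (u := (2, 2)) (by decide) (by decide)
  (by decide) (by decide) (by decide +kernel)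
lemma f4 : SepZ F (0, 0) (2, 2) := sep_zero tab_F (m := []) (u := (0, 1)) (by decide) (by decide)
  (by decide) (by decide) (by decide +kernel)
lemma f5 : SepZ F (0, 1) (1, 0) := sep_zero tab_F (m := []) (u := (2, 2)) (by decide) (by decide)
  (by decide) (by decide) (by decide +kernel)
lemma f6 : SepZ F (0, 1) (1, 1) := sep_zero tab_F (m := [1]) (u := (2, 2)) (by decide) (by decide)
  (by decide) (by decide) (by decide +kernel)
lemma f7 : SepZ F (0, 1) (2, 2) := sep_zero tab_F (m := []) (u := (0, 0)) (by decide) (by decide)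
  (by decide) (by decide) (by decide +kernel)
lemma f8 : SepZ F (1, 1) (1, 0) := sep_zero tab_F (m := []) (u := (2, 2)) (by decide) (by decide)
  (by decide) (by decide) (by decide +kernel)
lemma f9 : SepZ F (1, 0) (2, 2) := sep_zero tab_F (m := []) (u := (1, 1)) (by decide) (by decide)
  (by decide) (by decide) (by decide +kernel)
lemma f10 : SepZ F (1, 1) (2, 2) := sep_zero tab_F (m := []) (u := (1, 0)) (by decide) (by decide)
  (by decide) (by decide) (by decide +kernel)

end sepF

lemma g1 : SepZ G (0, 0) (0, 1) := sep_zero tab_G (m := []) (u := (2, 2)) (by decide) (by decide)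
  (by decide) (by decide) (by decide +kernel)
lemma g2 : SepZ G (0, 0) (1, 0) := sep_zero tab_G (m := []) (u := (2, 2)) (by decide) (by decide)
  (by decide) (by decide) (by decide +kernel)
lemma g3 : SepZ G (0, 0) (1, 1) := sep_two tab_G (m := [2]) (m' := [2]) (u := (0, 1))
  (u' := (1, 1)) (v0 := (2, 2)) (by decide) (by decide) (by decide) (by decide) (by decide)
  (by decide) (by decide) (by decide +kernel) 2 (by decide +kernel) (by decide +kernel)
lemma g4 : SepZ G (2, 2) (0, 0) := sep_zero tab_G (m := [0]) (u := (2, 2)) (by decide) (by decide)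
  (by decide) (by decide) (by decide +kernel)
lemma g5 : SepZ G (0, 1) (1, 0) := sep_two tab_G (m := [2]) (m' := [2]) (u := (0, 1))
  (u' := (1, 1)) (v0 := (2, 2)) (by decide) (by decide) (by decide) (by decide) (by decide)
  (by decide) (by decide) (by decide +kernel) 2 (by decide +kernel) (by decide +kernel)
lemma g6 : SepZ G (0, 1) (1, 1) := sep_zero tab_G (m := []) (u := (2, 2)) (by decide) (by decide)
  (by decide) (by decide) (by decide +kernel)
lemma g7 : SepZ G (2, 2) (0, 1) := sep_zero tab_G (m := []) (u := (1, 0)) (by decide) (by decide)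
  (by decide) (by decide) (by decide +kernel)
lemma g8 : SepZ G (1, 0) (1, 1) := sep_zero tab_G (m := []) (u := (2, 2)) (by decide) (by decide)
  (by decide) (by decide) (by decide +kernel)
lemma g9 : SepZ G (2, 2) (1, 0) := sep_zero tab_G (m := []) (u := (1, 0)) (by decide) (by decide)
  (by decide) (by decide) (by decide +kernel)
lemma g10 : SepZ G (2, 2) (1, 1) := sep_zero tab_G (m := [0]) (u := (2, 2)) (by decide) (by decide)
  (by decide) (by decide) (by decide +kernel)

lemma CC_cases {p : ℕ × ℕ} (h : p ∈ CC) :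
    p = (0, 0) ∨ p = (0, 1) ∨ p = (1, 0) ∨ p = (1, 1) ∨ p = (2, 2) := by
  simpa [CC] using h

theorem sepF : ∀ s ∈ CC, ∀ t ∈ CC, s ≠ t → SepZ F s t ∨ SepZ F t s := by
  intro s hs t ht hne
  rcases CC_cases hs with rfl | rfl | rfl | rfl | rfl <;>
  rcases CC_cases ht with rfl | rfl | rfl | rfl | rfl <;>
  first
    | exact absurd rfl hne
    | exact Or.inl f1 | exact Or.inr f1 | exact Or.inl f2 | exact Or.inr f2
    | exact Or.inl f3 | exact Or.inr f3 | exact Or.inl f4 | exact Or.inr f4
    | exact Or.inl f5 | exact Or.inr f5 | exact Or.inl f6 | exact Or.inr f6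
    | exact Or.inl f7 | exact Or.inr f7 | exact Or.inl f8 | exact Or.inr f8
    | exact Or.inl f9 | exact Or.inr f9 | exact Or.inl f10 | exact Or.inr f10

theorem sepG : ∀ s ∈ CC, ∀ t ∈ CC, s ≠ t → SepZ G s t ∨ SepZ G t s := by
  intro s hs t ht hne
  rcases CC_cases hs with rfl | rfl | rfl | rfl | rfl <;>
  rcases CC_cases ht with rfl | rfl | rfl | rfl | rfl <;>
  first
    | exact absurd rfl hne
    | exact Or.inl g1 | exact Or.inr g1 | exact Or.inl g2 | exact Or.inr g2
    | exact Or.inl g3 | exact Or.inr g3 | exact Or.inl g4 | exact Or.inr g4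
    | exact Or.inl g5 | exact Or.inr g5 | exact Or.inl g6 | exact Or.inr g6
    | exact Or.inl g7 | exact Or.inr g7 | exact Or.inl g8 | exact Or.inr g8
    | exact Or.inl g9 | exact Or.inr g9 | exact Or.inl g10 | exact Or.inr g10

end Pool.Agent.U20.CA
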